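import Pool.Agent.W5h65.LH.F7

set_option autoImplicit false

/-! The explicit domain attached to the `q`-th moment. -/

namespace Pool.Agent.W5h65.LH

open Finset Filter Topology MeasureTheory
open Pool.Agent.W5h65.MD hiding loc Fx_diff Fx_loc Fx_poly amgm height corner_Q Up Up_convex Up_mono hull_Up integ Omega Omega_sub Omega_open Omega_convex Omega_right Omega_connected Omega_top Omega_closure Corners hull_good

/-- the corners -/
def Corners (k q : ℕ) : Set ((Fin k → ℝ) × ℝ) :=
  {p | p = (fun _ => 1, 1 / 2) ∨ ∃ Q : Finset (Fin k),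
    p = (fun i => if i ∈ Q then 1 / 2 else 1, max 1 ((Q.card : ℝ) / q))}

theorem hull_good (k q M : ℕ) (hM : 1 ≤ M) (hq : 1 ≤ q) (hMom : MomN q) :
    Gd M (convexHull ℝ (Corners k q)) := by
  have h1 : Convex ℝ ({p : (Fin k → ℝ) × ℝ | (∀ i, 1 / 2 ≤ p.1 i) ∧ Good (EE (k := k) M) p} ∩
      {p : (Fin k → ℝ) × ℝ | 1 / 2 ≤ p.2}) := by
    apply (EE_convex k M hM).inter
    rintro p hp q hq a b ha hb hab
    have hp' : 1 / 2 ≤ p.2 := hp
    have hq' : 1 / 2 ≤ q.2 := hq
    show 1 / 2 ≤ (a • p + b • q).2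
    simp only [Prod.snd_add, Prod.smul_snd, smul_eq_mul]
    nlinarith
  have h2 : Corners k q ⊆ ({p : (Fin k → ℝ) × ℝ | (∀ i, 1 / 2 ≤ p.1 i) ∧ Good (EE (k := k) M) p} ∩
      {p : (Fin k → ℝ) × ℝ | 1 / 2 ≤ p.2}) := by
    rintro p (rfl | ⟨Q, rfl⟩)
    · refine ⟨⟨fun i => by norm_num, corner_one k M hM⟩, ?_⟩
      show (1 / 2 : ℝ) ≤ 1 / 2
      exact le_rfl
    · refine ⟨⟨fun i => ?_, ?_⟩, ?_⟩
      · show (1 / 2 : ℝ) ≤ if i ∈ Q then 1 / 2 else 1
        split_ifs <;> norm_num
      · convert corner_Q k M q hM hq hMom Q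
      · show (1 / 2 : ℝ) ≤ max 1 ((Q.card : ℝ) / q)
        exact le_trans (by norm_num) (le_max_left _ _)
  intro p hp
  exact convexHull_min h2 h1 hp

/-- points above the hull -/
def Up (k q : ℕ) : Set ((Fin k → ℝ) × ℝ) :=
  {p | ∃ r ∈ convexHull ℝ (Corners k q), (∀ i, r.1 i ≤ p.1 i) ∧ r.2 ≤ p.2}

lemma Up_convex (k q : ℕ) : Convex ℝ (Up k q) := by
  rintro p ⟨r, hq, hp1, hp2⟩ p' ⟨r', hq', hp1', hp2'⟩ a b ha hb hab
  refine ⟨a • r + b • r', convex_convexHull ℝ _ hq hq' ha hb hab, fun i => ?_, ?_⟩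
  · simp only [Prod.fst_add, Prod.smul_fst, Pi.add_apply, Pi.smul_apply, smul_eq_mul]
    exact add_le_add (mul_le_mul_of_nonneg_left (hp1 i) ha) (mul_le_mul_of_nonneg_left (hp1' i) hb)
  · simp only [Prod.snd_add, Prod.smul_snd, smul_eq_mul]
    exact add_le_add (mul_le_mul_of_nonneg_left hp2 ha) (mul_le_mul_of_nonneg_left hp2' hb)

lemma Up_mono {k q : ℕ} {p p' : (Fin k → ℝ) × ℝ} (h : p ∈ Up k q) (h1 : ∀ i, p.1 i ≤ p'.1 i)
    (h2 : p.2 ≤ p'.2) : p' ∈ Up k q := by
  obtain ⟨r, hq, hq1, hq2⟩ := h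
  exact ⟨r, hq, fun i => (hq1 i).trans (h1 i), hq2.trans h2⟩

lemma hull_Up {k q : ℕ} {r : (Fin k → ℝ) × ℝ} (h : r ∈ convexHull ℝ (Corners k q)) : r ∈ Up k q :=
  ⟨r, h, fun _ => le_rfl, le_rfl⟩

theorem integ (k q : ℕ) (hq : 1 ≤ q) : ∀ (n : ℕ) (x : Fin k → ℝ), (∀ i, 0 ≤ x i ∧ x i ≤ 1) → (fr x).card = n →
    ∀ h : ℝ, 1 ≤ h → ∑ i, x i ≤ q * h → pt x h ∈ Up k q := by
  classical
  have hq0 : (0 : ℝ) < q := by exact_mod_cast hq
  intro n
  induction n using Nat.strong_induction_on with
  | _ n ih =>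
  intro x hx hn h hh hsum
  by_cases h1 : ∃ i, i ∈ fr x
  · obtain ⟨i, hi⟩ := h1
    have hi' := (mem_fr x i).1 hi
    by_cases h2 : ∃ j, j ≠ i ∧ j ∈ fr x
    · obtain ⟨j, hji, hj⟩ := h2
      have hj' := (mem_fr x j).1 hj
      obtain ⟨a, ha⟩ : ∃ a, a = min (x i) (1 - x j) := ⟨_, rfl⟩
      obtain ⟨b, hb⟩ : ∃ b, b = min (1 - x i) (x j) := ⟨_, rfl⟩
      have ha0 : 0 < a := by rw [ha]; exact lt_min hi'.1 (by linarith)
      have hb0 : 0 < b := by rw [hb]; exact lt_min (by linarith) hj'.1
      have ha1 : a ≤ x i := by rw [ha]; exact min_le_left _ _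
      have ha2 : a ≤ 1 - x j := by rw [ha]; exact min_le_right _ _
      have hb1 : b ≤ 1 - x i := by rw [hb]; exact min_le_left _ _
      have hb2 : b ≤ x j := by rw [hb]; exact min_le_right _ _
      -- a general shift
      have shift : ∀ t : ℝ, -a ≤ t → t ≤ b → (t = -a ∨ t = b) →
          pt (fun l => x l + t * ((if l = i then 1 else 0) - (if l = j then 1 else 0))) h ∈ Up k q := by
        intro t ht1 ht2 ht3
        have hbox : ∀ l, 0 ≤ x l + t * ((if l = i then 1 else 0) - (if l = j then 1 else 0)) ∧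
            x l + t * ((if l = i then 1 else 0) - (if l = j then 1 else 0)) ≤ 1 := by
          intro l
          by_cases c1 : l = i
          · subst c1
            rw [if_pos rfl, if_neg (fun h => hji h.symm)]
            constructor <;> linarith
          · rw [if_neg c1]
            by_cases c2 : l = j
            · subst c2
              rw [if_pos rfl]
              constructor <;> linarith
            · rw [if_neg c2]
              have := hx l
              constructor <;> linarith
        have hcard : (fr (fun l => x l + t * ((if l = i then 1 else 0) - (if l = j then 1 else 0)))).card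
            < n := by
          rw [← hn]
          apply card_lt_card
          rw [ssubset_iff_of_subset]
          · have e3 : ∃ l, l ∈ fr x ∧ (x l + t * ((if l = i then 1 else 0) - (if l = j then 1 else 0)) = 0
                ∨ x l + t * ((if l = i then 1 else 0) - (if l = j then 1 else 0)) = 1) := by
              rcases ht3 with rfl | rfl
              · rcases min_choice (x i) (1 - x j) with c | c
                · refine ⟨i, hi, Or.inl ?_⟩
                  rw [if_pos rfl, if_neg (fun h => hji h.symm), ha, c]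
                  ring
                · refine ⟨j, hj, Or.inr ?_⟩
                  rw [if_pos rfl, if_neg hji, ha, c]
                  ring
              · rcases min_choice (1 - x i) (x j) with c | c
                · refine ⟨i, hi, Or.inr ?_⟩
                  rw [if_pos rfl, if_neg (fun h => hji h.symm), hb, c]
                  ring
                · refine ⟨j, hj, Or.inl ?_⟩
                  rw [if_pos rfl, if_neg hji, hb, c]
                  ring
            obtain ⟨l, hl, hl2⟩ := e3
            refine ⟨l, hl, fun hl3 => ?_⟩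
            have hl4 := (mem_fr _ l).1 hl3
            rcases hl2 with hl2 | hl2
            · linarith [hl4.1]
            · linarith [hl4.2]
          · intro l hl
            rw [mem_fr] at hl ⊢
            by_cases c1 : l = i
            · subst c1
              exact hi'
            · by_cases c2 : l = j
              · subst c2
                exact hj'
              · rw [if_neg c1, if_neg c2] at hl
                constructor <;> linarith [hl.1, hl.2]
        have hsum' : ∑ l, (x l + t * ((if l = i then 1 else 0) - (if l = j then 1 else 0))) ≤ q * h := by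
          rw [sum_add_distrib, ← mul_sum, sum_sub_distrib, sum_ite_eq' univ i, sum_ite_eq' univ j]
          simp only [mem_univ, if_true, sub_self, mul_zero, add_zero]
          exact hsum
        exact ih _ hcard _ hbox rfl h hh hsum'
      have s1 := shift (-a) le_rfl (by linarith) (Or.inl rfl)
      have s2 := shift b (by linarith) le_rfl (Or.inr rfl)
      have hab : 0 < a + b := by linarith
      have key := pt_comb x
        (fun l => x l + (-a) * ((if l = i then 1 else 0) - (if l = j then 1 else 0)))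
        (fun l => x l + b * ((if l = i then 1 else 0) - (if l = j then 1 else 0))) h h
        (b / (a + b)) (a / (a + b)) (by field_simp; ring) (by
          intro l
          field_simp
          ring)
      have key2 : b / (a + b) * h + a / (a + b) * h = h := by
        field_simp
        ring
      rw [key2] at key
      rw [key]
      exact Up_convex k q s1 s2 (by positivity) (by positivity) (by field_simp; ring)
    · push Not at h2
      -- only one fractional coordinate
      have hint : ∀ l, l ≠ i → x l = 0 ∨ x l = 1 := by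
        intro l hl
        by_contra hc
        push Not at hc
        exact h2 l hl ((mem_fr x l).2 ⟨lt_of_le_of_ne (hx l).1 (Ne.symm hc.1),
          lt_of_le_of_ne (hx l).2 hc.2⟩)
      obtain ⟨m, hm⟩ : ∃ m : ℕ, ∑ l ∈ univ.erase i, x l = m := by
        refine ⟨((univ.erase i).filter (fun l => x l = 1)).card, ?_⟩
        rw [card_filter]
        push_cast
        refine sum_congr rfl fun l hl => ?_
        rcases hint l (ne_of_mem_erase hl) with c | c
        · rw [c, if_neg (by norm_num)]
        · rw [c, if_pos rfl]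
      have hsumi : ∀ t : ℝ, ∑ l, Function.update x i t l = m + t := by
        intro t
        rw [← add_sum_erase univ _ (mem_univ i), Function.update_self, ← hm, add_comm]
        congr 1
        refine sum_congr rfl fun l hl => ?_
        rw [Function.update_of_ne (ne_of_mem_erase hl)]
      have hxs : ∑ l, x l = m + x i := by
        rw [← hsumi (x i), Function.update_eq_self]
      have hup : ∀ t : ℝ, (t = 0 ∨ t = 1) → ∀ h' : ℝ, 1 ≤ h' → m + t ≤ q * h' →
          pt (Function.update x i t) h' ∈ Up k q := by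
        intro t ht h' hh' hs'
        refine ih _ ?_ (Function.update x i t) ?_ rfl h' hh' (by rw [hsumi]; exact hs')
        · rw [← hn]
          apply card_lt_card
          rw [ssubset_iff_of_subset]
          · refine ⟨i, hi, fun hc => ?_⟩
            rw [mem_fr, Function.update_self] at hc
            rcases ht with rfl | rfl
            · linarith [hc.1]
            · linarith [hc.2]
          · intro l hl
            by_cases c : l = i
            · rw [c]
              exact hi
            · rw [mem_fr, Function.update_of_ne c] at hl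
              exact (mem_fr x l).2 hl
        · intro l
          by_cases c : l = i
          · subst c
            rw [Function.update_self]
            rcases ht with rfl | rfl <;> norm_num
          · rw [Function.update_of_ne c]
            exact hx l
      obtain ⟨h0, hh0⟩ : ∃ h0 : ℝ, h0 = max 1 ((m : ℝ) / q) := ⟨_, rfl⟩
      obtain ⟨h1, hh1⟩ : ∃ h1 : ℝ, h1 = max 1 (((m : ℝ) + 1) / q) := ⟨_, rfl⟩
      have u0 := hup 0 (Or.inl rfl) h0 (by rw [hh0]; exact le_max_left _ _) (by
        have := le_max_right 1 ((m : ℝ) / q)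
        rw [← hh0, div_le_iff₀ hq0] at this
        linarith)
      have u1 := hup 1 (Or.inr rfl) h1 (by rw [hh1]; exact le_max_left _ _) (by
        have := le_max_right 1 (((m : ℝ) + 1) / q)
        rw [← hh1, div_le_iff₀ hq0] at this
        linarith)
      have key := pt_comb x (Function.update x i 0) (Function.update x i 1) h0 h1 (1 - x i) (x i)
        (by ring) (by
          intro l
          by_cases c : l = i
          · subst c
            rw [Function.update_self, Function.update_self]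
            ring
          · rw [Function.update_of_ne c, Function.update_of_ne c]
            ring)
      have hmem : pt x ((1 - x i) * h0 + x i * h1) ∈ Up k q := by
        rw [key]
        exact Up_convex k q u0 u1 (by linarith) hi'.1.le (by ring)
      refine Up_mono hmem (fun l => le_rfl) ?_
      show (1 - x i) * h0 + x i * h1 ≤ h
      rcases Nat.lt_or_ge m q with hm4 | hm4
      · have hm3 : (m : ℝ) + 1 ≤ q := by exact_mod_cast hm4
        rw [hh0, hh1, max_eq_left (by rw [div_le_one hq0]; linarith),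
          max_eq_left (by rw [div_le_one hq0]; linarith)]
        linarith
      · have hm4' : (q : ℝ) ≤ m := by exact_mod_cast hm4
        rw [hh0, hh1, max_eq_right (by rw [one_le_div hq0]; linarith),
          max_eq_right (by rw [one_le_div hq0]; linarith)]
        rw [hxs] at hsum
        have e1 : (1 - x i) * ((m : ℝ) / q) + x i * (((m : ℝ) + 1) / q) = (m + x i) / q := by
          field_simp
          ring
        rw [e1, div_le_iff₀ hq0]
        linarith
  · push Not at h1
    have hint : ∀ l, x l = 0 ∨ x l = 1 := by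
      intro l
      by_contra hc
      push Not at hc
      exact h1 l ((mem_fr x l).2 ⟨lt_of_le_of_ne (hx l).1 (Ne.symm hc.1),
        lt_of_le_of_ne (hx l).2 hc.2⟩)
    obtain ⟨Q, hQ⟩ : ∃ Q : Finset (Fin k), Q = univ.filter (fun l => x l = 1) := ⟨_, rfl⟩
    have hxQ : ∑ l, x l = Q.card := by
      rw [hQ, card_filter]
      push_cast
      refine sum_congr rfl fun l _ => ?_
      rcases hint l with c | c
      · rw [c, if_neg (by norm_num)]
      · rw [c, if_pos rfl]
    refine ⟨(fun i => if i ∈ Q then 1 / 2 else 1, max 1 ((Q.card : ℝ) / q)),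
      subset_convexHull ℝ _ (Or.inr ⟨Q, rfl⟩), fun l => ?_, ?_⟩
    · show (if l ∈ Q then (1 / 2 : ℝ) else 1) ≤ 1 - x l / 2
      rcases hint l with c | c
      · rw [if_neg (by rw [hQ, mem_filter, c]; norm_num), c]
        norm_num
      · rw [if_pos (by rw [hQ, mem_filter]; exact ⟨mem_univ _, c⟩), c]
        norm_num
    · show max 1 ((Q.card : ℝ) / q) ≤ h
      rw [hxQ] at hsum
      exact max_le hh (by rw [div_le_iff₀ hq0]; linarith)

/-- the explicit domain -/
def Omega (k q : ℕ) : Set ((Fin k → ℝ) × ℝ) :=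
  {p | 1 / 2 < p.2 ∧ (∀ i, 1 - min 1 (2 * p.2 - 1) / 2 < p.1 i) ∧
    4 * ∑ i, max 0 (1 - p.1 i) < q * (min 1 (2 * p.2 - 1) + (2 * p.2 - 1))}

theorem Omega_sub (k q : ℕ) (hq : 1 ≤ q) : Omega k q ⊆ Ab (convexHull ℝ (Corners k q)) := by
  have hq0 : (0 : ℝ) < q := by exact_mod_cast hq
  rintro p ⟨h0, h1, h2⟩
  obtain ⟨τ, hτ⟩ : ∃ τ, τ = min 1 (2 * p.2 - 1) := ⟨_, rfl⟩
  rw [← hτ] at h1 h2
  have hτ0 : 0 < τ := by rw [hτ]; exact lt_min one_pos (by linarith)
  -- a small shift
  obtain ⟨η, hη, h3, h4, h5⟩ : ∃ η > 0, (∀ i, max 0 (1 - p.1 i) + η ≤ (τ - 2 * η) / 2) ∧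
      (4 * ∑ i, (max 0 (1 - p.1 i) + η) ≤ q * (τ - 2 * η + (2 * (p.2 - η) - 1))) ∧ 2 * η < τ := by
    have e1 : ∀ᶠ η : ℝ in 𝓝[>] 0, (∀ i, max 0 (1 - p.1 i) + η ≤ (τ - 2 * η) / 2) ∧
        (4 * ∑ i, (max 0 (1 - p.1 i) + η) ≤ q * (τ - 2 * η + (2 * (p.2 - η) - 1))) ∧ 2 * η < τ := by
      refine Filter.Eventually.and ?_ (Filter.Eventually.and ?_ ?_)
      · rw [eventually_all]
        intro i
        have e2 : max 0 (1 - p.1 i) < τ / 2 := max_lt (by linarith) (by linarith [h1 i])
        have : ∀ᶠ η : ℝ in 𝓝[>] 0, η < (τ / 2 - max 0 (1 - p.1 i)) / 2 :=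
          (eventually_lt_nhds (by linarith)).filter_mono nhdsWithin_le_nhds
        filter_upwards [this] with η hη
        linarith
      · have hk : (0 : ℝ) ≤ k := Nat.cast_nonneg k
        have : ∀ᶠ η : ℝ in 𝓝[>] 0, η < (q * (τ + (2 * p.2 - 1)) - 4 * ∑ i, max 0 (1 - p.1 i)) / (4 * k + 4 * q) :=
          (eventually_lt_nhds (by
            apply div_pos _ (by positivity)
            linarith)).filter_mono nhdsWithin_le_nhds
        filter_upwards [this] with η hη
        rw [lt_div_iff₀ (by positivity)] at hη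
        rw [sum_add_distrib, sum_const, card_univ, Fintype.card_fin, nsmul_eq_mul]
        linarith
      · have : ∀ᶠ η : ℝ in 𝓝[>] 0, η < τ / 2 :=
          (eventually_lt_nhds (by linarith)).filter_mono nhdsWithin_le_nhds
        filter_upwards [this] with η hη
        linarith
    obtain ⟨η, h2, h3⟩ := (e1.and self_mem_nhdsWithin).exists
    exact ⟨η, h3, h2⟩
  obtain ⟨H, hH⟩ : ∃ H, H = p.2 - η := ⟨_, rfl⟩
  obtain ⟨t, ht⟩ : ∃ t, t = τ - 2 * η := ⟨_, rfl⟩
  have ht0 : 0 < t := by rw [ht]; linarith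
  have ht1 : t ≤ 1 := by
    have : τ ≤ 1 := by rw [hτ]; exact min_le_left _ _
    linarith
  have htH : t ≤ 2 * H - 1 := by
    have : τ ≤ 2 * p.2 - 1 := by rw [hτ]; exact min_le_right _ _
    rw [ht, hH]
    linarith
  rw [← hH, ← ht] at h4
  rw [← ht] at h3
  obtain ⟨x, hx⟩ : ∃ x : Fin k → ℝ, x = fun i => 2 * (max 0 (1 - p.1 i) + η) / t := ⟨_, rfl⟩
  have hx0 : ∀ i, 0 ≤ x i ∧ x i ≤ 1 := by
    intro i
    rw [hx]
    simp only
    have e1 : 0 ≤ max 0 (1 - p.1 i) := le_max_left _ _
    constructor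
    · positivity
    · rw [div_le_one ht0]
      linarith [h3 i]
  obtain ⟨h, hh⟩ : ∃ h, h = (H - (1 - t) / 2) / t := ⟨_, rfl⟩
  have hh1 : 1 ≤ h := by
    rw [hh, le_div_iff₀ ht0]
    linarith
  have hxs : ∑ i, x i ≤ q * h := by
    rw [hx]
    simp only
    rw [← sum_div, ← mul_sum, div_le_iff₀ ht0, hh]
    have : q * ((H - (1 - t) / 2) / t) * t = q * (t + (2 * H - 1)) / 2 := by
      field_simp
      ring
    rw [this]
    linarith
  have hmem := integ k q hq _ x hx0 rfl h hh1 hxs
  have hmem0 : ((fun _ => 1, 1 / 2) : (Fin k → ℝ) × ℝ) ∈ Up k q :=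
    hull_Up (subset_convexHull ℝ _ (Or.inl rfl))
  obtain ⟨r, hr, hq1, hq2⟩ := Up_convex k q hmem0 hmem (a := 1 - t) (b := t) (by linarith) ht0.le (by ring)
  refine ⟨r, hr, fun i => ?_, ?_⟩
  · refine lt_of_le_of_lt (hq1 i) ?_
    simp only [Prod.fst_add, Prod.smul_fst, Pi.add_apply, Pi.smul_apply, smul_eq_mul, pt]
    have e1 : (1 - t) * 1 + t * (1 - x i / 2) = 1 - (max 0 (1 - p.1 i) + η) := by
      rw [hx]
      field_simp
      ring
    rw [e1]
    have := le_max_right 0 (1 - p.1 i)
    linarith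
  · refine lt_of_le_of_lt hq2 ?_
    simp only [Prod.snd_add, Prod.smul_snd, smul_eq_mul, pt]
    have e1 : (1 - t) * (1 / 2) + t * h = H := by
      rw [hh]
      field_simp
      ring
    rw [e1, hH]
    linarith

theorem Omega_open (k q : ℕ) : IsOpen (Omega k q) := by
  have e : Omega k q = {p : (Fin k → ℝ) × ℝ | 1 / 2 < p.2} ∩
      ((⋂ i, {p | 1 - min 1 (2 * p.2 - 1) / 2 < p.1 i}) ∩
      {p | 4 * ∑ i, max 0 (1 - p.1 i) < q * (min 1 (2 * p.2 - 1) + (2 * p.2 - 1))}) := by
    ext p
    simp [Omega]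
  rw [e]
  apply IsOpen.inter
  · exact isOpen_lt continuous_const continuous_snd
  · apply IsOpen.inter
    · exact isOpen_iInter_of_finite fun i => isOpen_lt (by fun_prop) (by fun_prop)
    · exact isOpen_lt (by fun_prop) (by fun_prop)

theorem Omega_convex (k n : ℕ) : Convex ℝ (Omega k n) := by
  rintro p ⟨p0, p1, p2⟩ q ⟨q0, q1, q2⟩ a b ha hb hab
  have hb' : b = 1 - a := by linarith
  have hmin : a * min 1 (2 * p.2 - 1) + b * min 1 (2 * q.2 - 1) ≤
      min 1 (2 * (a * p.2 + b * q.2) - 1) := by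
    apply le_min
    · have h1 := mul_le_mul_of_nonneg_left (min_le_left 1 (2 * p.2 - 1)) ha
      have h2 := mul_le_mul_of_nonneg_left (min_le_left 1 (2 * q.2 - 1)) hb
      linarith
    · have h1 := mul_le_mul_of_nonneg_left (min_le_right 1 (2 * p.2 - 1)) ha
      have h2 := mul_le_mul_of_nonneg_left (min_le_right 1 (2 * q.2 - 1)) hb
      linarith
  have hlt : ∀ u u' v v' : ℝ, u < u' → v < v' → a * u + b * v < a * u' + b * v' := by
    intro u u' v v' hu hv
    rcases ha.eq_or_lt with h | h
    · have h' : b = 1 := by linarith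
      rw [← h, h']
      linarith
    · have h1 := mul_lt_mul_of_pos_left hu h
      have h2 := mul_le_mul_of_nonneg_left hv.le hb
      linarith
  show 1 / 2 < (a • p + b • q).2 ∧ (∀ i, 1 - min 1 (2 * (a • p + b • q).2 - 1) / 2 <
    (a • p + b • q).1 i) ∧ 4 * ∑ i, max 0 (1 - (a • p + b • q).1 i) <
    n * (min 1 (2 * (a • p + b • q).2 - 1) + (2 * (a • p + b • q).2 - 1))
  simp only [Prod.fst_add, Prod.smul_fst, Pi.add_apply, Pi.smul_apply, smul_eq_mul, Prod.snd_add,
    Prod.smul_snd]
  refine ⟨?_, fun i => ?_, ?_⟩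
  · have := hlt _ _ _ _ p0 q0
    linarith
  · have := hlt _ _ _ _ (p1 i) (q1 i)
    linarith
  · have h1 := hlt _ _ _ _ p2 q2
    have h2 : ∑ i, max 0 (1 - (a * p.1 i + b * q.1 i)) ≤
        a * ∑ i, max 0 (1 - p.1 i) + b * ∑ i, max 0 (1 - q.1 i) := by
      rw [mul_sum, mul_sum, ← sum_add_distrib]
      refine sum_le_sum fun i _ => ?_
      have e1 := mul_le_mul_of_nonneg_left (le_max_left 0 (1 - p.1 i)) ha
      have e2 := mul_le_mul_of_nonneg_left (le_max_right 0 (1 - p.1 i)) ha
      have e3 := mul_le_mul_of_nonneg_left (le_max_left 0 (1 - q.1 i)) hb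
      have e4 := mul_le_mul_of_nonneg_left (le_max_right 0 (1 - q.1 i)) hb
      apply max_le
      · linarith
      · linarith
    have h3 : (n : ℝ) * (a * min 1 (2 * p.2 - 1) + b * min 1 (2 * q.2 - 1)) ≤
        n * min 1 (2 * (a * p.2 + b * q.2) - 1) := mul_le_mul_of_nonneg_left hmin (Nat.cast_nonneg n)
    have h4 : a * (n * (min 1 (2 * p.2 - 1) + (2 * p.2 - 1))) +
        b * (n * (min 1 (2 * q.2 - 1) + (2 * q.2 - 1))) =
        n * (a * min 1 (2 * p.2 - 1) + b * min 1 (2 * q.2 - 1)) +
        n * (2 * (a * p.2 + b * q.2) - 1) := by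
      rw [hb']
      ring
    rw [mul_add]
    linarith

/-- the region of absolute convergence, and more -/
theorem Omega_right (k q : ℕ) (hq : 1 ≤ q) (p : (Fin k → ℝ) × ℝ) (h1 : ∀ i, 1 < p.1 i) (h2 : 1 / 2 < p.2) :
    p ∈ Omega k q := by
  have hq0 : (0 : ℝ) < q := by exact_mod_cast hq
  have hτ : 0 < min 1 (2 * p.2 - 1) := lt_min one_pos (by linarith)
  refine ⟨h2, fun i => by linarith [h1 i], ?_⟩
  rw [sum_eq_zero fun i _ => max_eq_left (by linarith [h1 i]), mul_zero]
  apply mul_pos hq0
  linarith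

theorem Omega_connected (k q : ℕ) (hq : 1 ≤ q) : IsConnected (Omega k q) :=
  ⟨⟨(fun _ => 2, 1), Omega_right k q hq _ (fun _ => by norm_num) (by norm_num)⟩,
    (Omega_convex k q).isPreconnected⟩

/-- the part `Re w > 1` -/
theorem Omega_top (k q : ℕ) (p : (Fin k → ℝ) × ℝ) (h1 : ∀ i, 1 / 2 < p.1 i) (h2 : 1 < p.2)
    (h3 : 2 * ∑ i, max 0 (1 - p.1 i) < q * p.2) : p ∈ Omega k q := by
  have hτ : min 1 (2 * p.2 - 1) = 1 := min_eq_left (by linarith)
  refine ⟨by linarith, fun i => ?_, ?_⟩
  · rw [hτ]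
    linarith [h1 i]
  · rw [hτ]
    linarith

/-- the central point is on the boundary for `k ≤ 4` -/
theorem Omega_closure (k q : ℕ) (hq : 1 ≤ q) (hk : k ≤ q) :
    ((fun _ => 1 / 2, 1) : (Fin k → ℝ) × ℝ) ∈ closure (Omega k q) := by
  have hq0 : (0 : ℝ) < q := by exact_mod_cast hq
  have hk' : (k : ℝ) ≤ q := by exact_mod_cast hk
  have hlim : Tendsto (fun ε : ℝ => ((fun _ => 1 / 2 + ε, 1 + ε) : (Fin k → ℝ) × ℝ)) (𝓝[>] 0)
      (𝓝 ((fun _ => 1 / 2, 1) : (Fin k → ℝ) × ℝ)) := by
    have hc : Continuous (fun ε : ℝ => ((fun _ => 1 / 2 + ε, 1 + ε) : (Fin k → ℝ) × ℝ)) := by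
      fun_prop
    have := hc.tendsto 0
    simp only [add_zero] at this
    exact this.mono_left nhdsWithin_le_nhds
  refine mem_closure_of_tendsto hlim ?_
  filter_upwards [self_mem_nhdsWithin] with ε hε
  have hε' : 0 < ε := hε
  apply Omega_top
  · intro i
    show 1 / 2 < 1 / 2 + ε
    linarith
  · show 1 < 1 + ε
    linarith
  · show 2 * ∑ _i : Fin k, max 0 (1 - (1 / 2 + ε)) < q * (1 + ε)
    rw [sum_const, card_univ, Fintype.card_fin, nsmul_eq_mul]
    have e1 : max 0 (1 - (1 / 2 + ε)) ≤ 1 / 2 := max_le (by norm_num) (by linarith)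
    have e2 : 0 ≤ max 0 (1 - (1 / 2 + ε)) := le_max_left _ _
    have e3 : (k : ℝ) * max 0 (1 - (1 / 2 + ε)) ≤ q * (1 / 2) :=
      mul_le_mul hk' e1 e2 hq0.le
    have e4 : 0 < q * ε := mul_pos hq0 hε'
    linarith

end Pool.Agent.W5h65.LH
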