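import Pool.Agent.W5h65.LH.F6
import Pool.Agent.W5h65.LH.F8

set_option autoImplicit false

/-! The second and the fourth moment. -/

namespace Pool.Agent.W5h65.LH

open Finset Filter Topology MeasureTheory
open Pool.Agent.W5h65.MD hiding loc Fx_diff Fx_loc Fx_poly amgm height corner_Q Up Up_convex Up_mono hull_Up integ Omega Omega_sub Omega_open Omega_convex Omega_right Omega_connected Omega_top Omega_closure Corners hull_good

theorem mom_two : Mom 2 := by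
  classical
  intro ε B hε
  obtain ⟨C, A, hC, h⟩ := mom_fund ε B hε
  refine ⟨256 * C, A, fun X s hX hs1 hs2 => ?_⟩
  calc ∑ d ∈ (Icc 2 X).filter IsFund, ‖Ld d s‖ ^ (2 * 2)
      ≤ ∑ d ∈ (Icc 2 X).filter IsFund, 256 * ‖Lo d s‖ ^ 4 := by
        refine sum_le_sum fun d _ => ?_
        calc ‖Ld d s‖ ^ (2 * 2) ≤ (4 * ‖Lo d s‖) ^ (2 * 2) :=
              pow_le_pow_left₀ (norm_nonneg _) (Ld_norm d (by linarith)) _
          _ = 256 * ‖Lo d s‖ ^ 4 := by ring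
    _ = 256 * ∑ d ∈ (Icc 2 X).filter IsFund, ‖Lo d s‖ ^ 4 := by rw [mul_sum]
    _ ≤ 256 * (C * (1 + ‖s‖) ^ A * (X : ℝ) ^ (1 + ε)) := by
        have := h X s hX hs1 hs2
        linarith
    _ = _ := by ring

theorem mom_mono {m n : ℕ} (hmn : m ≤ n) (h : Mom n) : Mom m := by
  classical
  intro ε B hε
  obtain ⟨C, A, h1⟩ := h ε B hε
  refine ⟨1 + max C 0, A, fun X s hX hs1 hs2 => ?_⟩
  have hX1 : (1 : ℝ) ≤ X := by exact_mod_cast hX
  have hS1 : 1 ≤ (1 + ‖s‖) ^ A := one_le_pow₀ (by linarith [norm_nonneg s])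
  have e1 : ∑ d ∈ (Icc 2 X).filter IsFund, ‖Ld d s‖ ^ (2 * m) ≤
      ∑ d ∈ (Icc 2 X).filter IsFund, (1 + ‖Ld d s‖ ^ (2 * n)) := by
    refine sum_le_sum fun d _ => ?_
    rcases le_total ‖Ld d s‖ 1 with h5 | h5
    · have h6 : ‖Ld d s‖ ^ (2 * m) ≤ 1 := pow_le_one₀ (norm_nonneg _) h5
      have h7 : 0 ≤ ‖Ld d s‖ ^ (2 * n) := by positivity
      linarith
    · have h6 : ‖Ld d s‖ ^ (2 * m) ≤ ‖Ld d s‖ ^ (2 * n) := pow_le_pow_right₀ h5 (by omega)
      linarith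
  have e2 : (((Icc 2 X).filter IsFund).card : ℝ) ≤ (X : ℝ) ^ (1 + ε) := by
    have e5 : ((Icc 2 X).filter IsFund).card ≤ X := by
      refine (card_filter_le _ _).trans ?_
      rw [Nat.card_Icc]
      omega
    calc (((Icc 2 X).filter IsFund).card : ℝ) ≤ X := by exact_mod_cast e5
      _ = (X : ℝ) ^ (1 : ℝ) := (Real.rpow_one _).symm
      _ ≤ _ := Real.rpow_le_rpow_of_exponent_le hX1 (by linarith)
  have e3 := h1 X s hX hs1 hs2
  have hp : 0 < (X : ℝ) ^ (1 + ε) := by positivity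
  rw [sum_add_distrib, sum_const, nsmul_eq_mul, mul_one] at e1
  calc _ ≤ _ := e1
    _ ≤ (X : ℝ) ^ (1 + ε) + C * (1 + ‖s‖) ^ A * (X : ℝ) ^ (1 + ε) := add_le_add e2 e3
    _ ≤ (1 + ‖s‖) ^ A * (X : ℝ) ^ (1 + ε) + max C 0 * (1 + ‖s‖) ^ A * (X : ℝ) ^ (1 + ε) := by
        apply add_le_add
        · exact le_mul_of_one_le_left hp.le hS1
        · have := le_max_left C 0
          gcongr
    _ = _ := by ring

end Pool.Agent.W5h65.LH
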