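import Pool.Agent.W5h65.LH.F5

set_option autoImplicit false

/-! The Lindelöf hypothesis and all moments. -/

namespace Pool.Agent.W5h65.LH

open Finset Filter Topology MeasureTheory
open Pool.Agent.W5h65.MD hiding loc Fx_diff Fx_loc Fx_poly

/-- the Lindelöf hypothesis in the conductor aspect -/
def Lind : Prop := ∀ ε B : ℝ, 0 < ε → ∃ (C : ℝ) (A : ℕ), ∀ (d : ℕ) (s : ℂ), IsFund d → 1 < d →
  1 / 2 + ε ≤ s.re → s.re ≤ B → ‖Ld d s‖ ≤ C * (1 + ‖s‖) ^ A * (d : ℝ) ^ ε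

theorem mom_of_lind (h : Lind) (m : ℕ) (hm : 1 ≤ m) : Mom m := by
  classical
  intro ε B hε
  have hm0 : (0 : ℝ) < m := by exact_mod_cast hm
  obtain ⟨δ, hδ⟩ : ∃ δ : ℝ, δ = ε / (2 * m) := ⟨_, rfl⟩
  have hδ0 : 0 < δ := by rw [hδ]; positivity
  have hδε : δ ≤ ε := by
    rw [hδ, div_le_iff₀ (by positivity)]
    have : (1 : ℝ) ≤ m := by exact_mod_cast hm
    nlinarith
  obtain ⟨C, A, hC⟩ := h δ B hδ0
  refine ⟨|C| ^ (2 * m), A * (2 * m), ?_⟩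
  intro X s hX hs1 hs2
  have hX1 : (1 : ℝ) ≤ X := by exact_mod_cast hX
  have e1 : ∀ d ∈ (Icc 2 X).filter IsFund, ‖Ld d s‖ ^ (2 * m) ≤
      |C| ^ (2 * m) * (1 + ‖s‖) ^ (A * (2 * m)) * (X : ℝ) ^ ε := by
    intro d hd
    rw [mem_filter, mem_Icc] at hd
    have hd0 : (0 : ℝ) < d := by exact_mod_cast (by omega : 0 < d)
    have hdX : (d : ℝ) ≤ X := by exact_mod_cast hd.1.2
    have e2 : ‖Ld d s‖ ≤ |C| * (1 + ‖s‖) ^ A * (d : ℝ) ^ δ := by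
      refine (hC d s hd.2 (by omega) (by linarith) hs2).trans ?_
      have := le_abs_self C
      gcongr
    have e3 : (d : ℝ) ^ δ ≤ (X : ℝ) ^ δ := Real.rpow_le_rpow hd0.le hdX hδ0.le
    calc ‖Ld d s‖ ^ (2 * m) ≤ (|C| * (1 + ‖s‖) ^ A * (X : ℝ) ^ δ) ^ (2 * m) := by
          apply pow_le_pow_left₀ (norm_nonneg _)
          refine e2.trans ?_
          gcongr
      _ = |C| ^ (2 * m) * (1 + ‖s‖) ^ (A * (2 * m)) * ((X : ℝ) ^ δ) ^ (2 * m) := by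
          rw [mul_pow, mul_pow, ← pow_mul]
      _ = _ := by
          rw [← Real.rpow_natCast ((X : ℝ) ^ δ) (2 * m), ← Real.rpow_mul (by linarith)]
          congr 2
          rw [hδ]
          push_cast
          field_simp
  refine (sum_le_sum e1).trans ?_
  rw [sum_const, nsmul_eq_mul]
  have hcard : (((Icc 2 X).filter IsFund).card : ℝ) ≤ X := by
    have : ((Icc 2 X).filter IsFund).card ≤ X := by
      refine (card_filter_le _ _).trans ?_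
      rw [Nat.card_Icc]
      omega
    exact_mod_cast this
  calc _ ≤ (X : ℝ) * (|C| ^ (2 * m) * (1 + ‖s‖) ^ (A * (2 * m)) * (X : ℝ) ^ ε) :=
        mul_le_mul_of_nonneg_right hcard (by positivity)
    _ = |C| ^ (2 * m) * (1 + ‖s‖) ^ (A * (2 * m)) * ((X : ℝ) ^ (1 : ℝ) * (X : ℝ) ^ ε) := by
        rw [Real.rpow_one]
        ring
    _ = _ := by rw [← Real.rpow_add (by linarith)]

theorem lind_of_mom (h : ∀ m : ℕ, 1 ≤ m → Mom m) : Lind := by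
  classical
  intro ε B hε
  obtain ⟨δ, hδ⟩ : ∃ δ : ℝ, δ = min ε 1 := ⟨_, rfl⟩
  have hδ0 : 0 < δ := by rw [hδ]; exact lt_min hε one_pos
  have hδε : δ ≤ ε := by rw [hδ]; exact min_le_left _ _
  have hδ1 : δ ≤ 1 := by rw [hδ]; exact min_le_right _ _
  obtain ⟨m, hm⟩ := exists_nat_gt (1 / ε)
  have hm0 : 0 < m := by
    have : (0 : ℝ) < m := lt_trans (by positivity) hm
    exact_mod_cast this
  have hmε : 1 < m * ε := by
    rw [div_lt_iff₀ hε] at hm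
    exact hm
  obtain ⟨C, A, hC⟩ := h m hm0 δ B hδ0
  refine ⟨max C 1, A, ?_⟩
  intro d s hd h1 hs1 hs2
  have hd1 : (1 : ℝ) ≤ d := by exact_mod_cast h1.le
  have hS : 1 ≤ 1 + ‖s‖ := by linarith [norm_nonneg s]
  have e1 : ‖Ld d s‖ ^ (2 * m) ≤ C * (1 + ‖s‖) ^ A * (d : ℝ) ^ (1 + δ) := by
    refine le_trans ?_ (hC d s h1.le (by linarith) hs2)
    apply single_le_sum (f := fun d => ‖Ld d s‖ ^ (2 * m)) (fun d _ => by positivity)
    rw [mem_filter, mem_Icc]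
    exact ⟨⟨h1, le_refl d⟩, hd⟩
  have e2 : C * (1 + ‖s‖) ^ A * (d : ℝ) ^ (1 + δ) ≤
      (max C 1 * (1 + ‖s‖) ^ A * (d : ℝ) ^ ε) ^ (2 * m) := by
    have e3 : (max C 1 * (1 + ‖s‖) ^ A * (d : ℝ) ^ ε) ^ (2 * m) =
        (max C 1) ^ (2 * m) * ((1 + ‖s‖) ^ A) ^ (2 * m) * (d : ℝ) ^ (ε * ((2 * m : ℕ) : ℝ)) := by
      rw [mul_pow, mul_pow, ← Real.rpow_natCast ((d : ℝ) ^ ε) (2 * m), ← Real.rpow_mul (by linarith)]
    rw [e3]
    have e4 : C ≤ (max C 1) ^ (2 * m) := by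
      have : max C 1 ≤ (max C 1) ^ (2 * m) := le_self_pow₀ (le_max_right _ _) (by omega)
      exact (le_max_left _ _).trans this
    have e5 : (1 + ‖s‖) ^ A ≤ ((1 + ‖s‖) ^ A) ^ (2 * m) :=
      le_self_pow₀ (one_le_pow₀ hS) (by omega)
    have e6 : (d : ℝ) ^ (1 + δ) ≤ (d : ℝ) ^ (ε * ((2 * m : ℕ) : ℝ)) := by
      apply Real.rpow_le_rpow_of_exponent_le hd1
      push_cast
      nlinarith
    have e7 : (0 : ℝ) ≤ (max C 1) ^ (2 * m) := by positivity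
    gcongr
  exact le_of_pow_le_pow_left₀ (by omega) (by positivity) (e1.trans e2)

theorem lind_iff : Lind ↔ ∀ m : ℕ, 1 ≤ m → Mom m :=
  ⟨fun h m hm => mom_of_lind h m hm, lind_of_mom⟩

end Pool.Agent.W5h65.LH
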