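import Pool.Agent.W5h65.MD.D3

set_option autoImplicit false

/-! The continuation to the points above a set of good points. -/

namespace Pool.Agent.W5h65.LH

open Finset Filter Topology MeasureTheory Pool.Agent.H306R2.RZ Pool.Agent.H143R3.FM
open Pool.Agent.W5h65.MD hiding loc Fx_diff Fx_loc Fx_poly

/-- points strictly above a set -/
def Ab {k : ℕ} (S : Set ((Fin k → ℝ) × ℝ)) : Set ((Fin k → ℝ) × ℝ) :=
  {p | ∃ q ∈ S, (∀ i, q.1 i < p.1 i) ∧ q.2 < p.2}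

/-- all points of `S` are good -/
def Gd {k : ℕ} (M : ℕ) (S : Set ((Fin k → ℝ) × ℝ)) : Prop :=
  ∀ q ∈ S, ((∀ i, 1 / 2 ≤ q.1 i) ∧ Good (EE (k := k) M) q) ∧ 1 / 2 ≤ q.2

/-- a neighbourhood with uniform bounds -/
theorem loc (k M : ℕ) (hM : 1 ≤ M) (S : Set ((Fin k → ℝ) × ℝ)) (hS : Gd M S) (p : (Fin k → ℝ) × ℝ) (hp : p ∈ Ab S) :
    ∃ U : Set ((Fin k → ℝ) × ℝ), IsOpen U ∧ p ∈ U ∧ U ⊆ Ab S ∧
    (∀ p' ∈ U, (∀ i, 1 / 2 < p'.1 i) ∧ 1 / 2 < p'.2) ∧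
    ∃ (R C : ℝ) (A : ℕ) (r : ℝ), 0 < C ∧ 0 < r ∧ r < 1 ∧ 0 < R ∧ ∀ z : (Fin k → ℂ) × ℂ, rez z ∈ U →
      ‖rez z‖ ≤ R ∧ ‖TT M z.1‖ ≤ C ∧
      ∀ j, ‖EE M j z.1 z.2‖ ≤ C * (1 + ‖z.1‖ + ‖z.2‖) ^ A * r ^ j := by
  obtain ⟨q, hq, hq1, hq2⟩ := hp
  obtain ⟨⟨hg1, hg2⟩, hg3⟩ := hS q hq
  obtain ⟨δ, hδ, hδ1, hδ2⟩ : ∃ δ > 0, (∀ i, q.1 i + δ < p.1 i) ∧ q.2 + 2 * δ < p.2 := by
    have h1 : ∀ᶠ δ : ℝ in 𝓝[>] 0, (∀ i, q.1 i + δ < p.1 i) ∧ q.2 + 2 * δ < p.2 := by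
      apply Filter.Eventually.and
      · rw [eventually_all]
        intro i
        have : ∀ᶠ ε : ℝ in 𝓝[>] 0, ε < p.1 i - q.1 i :=
          (eventually_lt_nhds (by linarith [hq1 i])).filter_mono nhdsWithin_le_nhds
        filter_upwards [this] with ε hε
        linarith
      · have : ∀ᶠ ε : ℝ in 𝓝[>] 0, ε < (p.2 - q.2) / 2 :=
          (eventually_lt_nhds (by linarith)).filter_mono nhdsWithin_le_nhds
        filter_upwards [this] with ε hε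
        linarith
    obtain ⟨δ, h2, h3⟩ := (h1.and self_mem_nhdsWithin).exists
    exact ⟨δ, h3, h2⟩
  obtain ⟨B, hB⟩ : ∃ B, B = ‖p‖ + 1 := ⟨_, rfl⟩
  have hB0 : 0 < B := by rw [hB]; positivity
  have hpB1 : ∀ i, p.1 i < B := by
    intro i
    have h1 := (le_abs_self (p.1 i)).trans ((norm_le_pi_norm p.1 i).trans (norm_fst_le p))
    rw [hB]
    linarith
  have hpB2 : p.2 < B := by
    have h1 := (le_abs_self p.2).trans (norm_snd_le p)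
    rw [hB]
    linarith
  obtain ⟨C, A, hC, h⟩ := hg2 δ B hδ
  obtain ⟨CT, hCT, hT⟩ := TT_bound k δ hδ M hM
  refine ⟨{p' | (∀ i, q.1 i + δ < p'.1 i ∧ p'.1 i < B) ∧ q.2 + 2 * δ < p'.2 ∧ p'.2 < B},
    ?_, ⟨fun i => ⟨hδ1 i, hpB1 i⟩, hδ2, hpB2⟩, ?_, ?_, B, C + CT, A, 2 ^ (-δ), by positivity,
    by positivity, Real.rpow_lt_one_of_one_lt_of_neg (by norm_num) (by linarith), hB0, ?_⟩
  · have e : {p' : (Fin k → ℝ) × ℝ | (∀ i, q.1 i + δ < p'.1 i ∧ p'.1 i < B) ∧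
        q.2 + 2 * δ < p'.2 ∧ p'.2 < B} = (⋂ i, ({p' | q.1 i + δ < p'.1 i} ∩ {p' | p'.1 i < B})) ∩
        ({p' | q.2 + 2 * δ < p'.2} ∩ {p' | p'.2 < B}) := by
      ext p'
      simp
    rw [e]
    apply IsOpen.inter
    · apply isOpen_iInter_of_finite
      intro i
      have hc : Continuous (fun p' : (Fin k → ℝ) × ℝ => p'.1 i) :=
        (continuous_apply i).comp continuous_fst
      exact (isOpen_lt continuous_const hc).inter (isOpen_lt hc continuous_const)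
    · exact (isOpen_lt continuous_const continuous_snd).inter
        (isOpen_lt continuous_snd continuous_const)
  · rintro p' ⟨h1, h2, _⟩
    exact ⟨q, hq, fun i => by linarith [(h1 i).1], by linarith⟩
  · rintro p' ⟨h1, h2, _⟩
    exact ⟨fun i => by linarith [(h1 i).1, hg1 i], by linarith⟩
  · rintro z ⟨h1, h2, h3⟩
    have h1' : ∀ i, q.1 i + δ < (z.1 i).re ∧ (z.1 i).re < B := h1
    have h2' : q.2 + 2 * δ < z.2.re := h2
    have h3' : z.2.re < B := h3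
    have hw : |z.2.re| ≤ B := by
      rw [abs_of_nonneg (by linarith)]
      exact h3'.le
    refine ⟨?_, ?_, ?_⟩
    · unfold rez
      rw [Prod.norm_mk, max_le_iff]
      constructor
      · rw [pi_norm_le_iff_of_nonneg hB0.le]
        intro i
        rw [Real.norm_eq_abs, abs_of_nonneg (by linarith [(h1' i).1, hg1 i])]
        exact (h1' i).2.le
      · rw [Real.norm_eq_abs]
        exact hw
    · have := hT z.1 (fun i => by linarith [(h1' i).1, hg1 i])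
      linarith
    · intro j
      have h4 := h j z.1 z.2 (fun i => (h1' i).1.le) (fun i => (h1' i).2.le) hw
      refine h4.trans ?_
      have h5 : (2 : ℝ) ^ ((j : ℝ) * (q.2 + δ - z.2.re)) ≤ (2 ^ (-δ)) ^ j := by
        rw [← Real.rpow_natCast _ j, ← Real.rpow_mul (by norm_num)]
        apply Real.rpow_le_rpow_of_exponent_le (by norm_num)
        rw [mul_comm (-δ)]
        apply mul_le_mul_of_nonneg_left _ (Nat.cast_nonneg j)
        linarith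
      have h6 : C ≤ C + CT := by linarith
      gcongr

theorem Fx_diff (k M : ℕ) (hM : 1 ≤ M) (S : Set ((Fin k → ℝ) × ℝ)) (hS : Gd M S) (P : (Fin k → ℂ) × ℂ → ℂ) (hP : Differentiable ℂ P) :
    DifferentiableOn ℂ (Fx (k := k) M P) (tube (Ab S)) := by
  have hsub : tube (Ab S) ⊆ DD k := by
    intro z hz i
    obtain ⟨U, _, h1, _, h2, _⟩ := loc k M hM S hS (rez z) hz
    exact (h2 _ h1).1 i
  have hE : DifferentiableOn ℂ (fun z : (Fin k → ℂ) × ℂ => ∑' j, EE M j z.1 z.2) (tube (Ab S)) := by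
    refine holo_tsum' (fun j => (EE_diff k M hM j).mono hsub) ?_
    intro z hz
    obtain ⟨U, hU1, hU2, hU3, _, R, C, A, r, hC, hr0, hr1, _, hU4⟩ := loc k M hM S hS (rez z) hz
    refine ⟨rez ⁻¹' U ∩ {z' | ‖z'‖ < ‖z‖ + 1}, ?_, ?_, ?_,
      fun j => C * (1 + 2 * (‖z‖ + 1)) ^ A * r ^ j, ?_, ?_⟩
    · rintro z' ⟨h1, _⟩
      exact hU3 h1
    · exact (hU1.preimage rez_cont).inter (isOpen_lt continuous_norm continuous_const)
    · refine ⟨hU2, ?_⟩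
      show ‖z‖ < ‖z‖ + 1
      linarith
    · exact (summable_geometric_of_lt_one hr0.le hr1).mul_left _
    · rintro j z' ⟨h1, h2⟩
      have h2' : ‖z'‖ < ‖z‖ + 1 := h2
      refine ((hU4 z' h1).2.2 j).trans ?_
      show _ ≤ C * (1 + 2 * (‖z‖ + 1)) ^ A * r ^ j
      have h3 := norm_fst_le z'
      have h4 := norm_snd_le z'
      have h5 : 1 + ‖z'.1‖ + ‖z'.2‖ ≤ 1 + 2 * (‖z‖ + 1) := by linarith
      gcongr
  unfold Fx
  apply DifferentiableOn.mul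
  · apply DifferentiableOn.add
    · apply DifferentiableOn.mul _ hE
      exact (differentiable_snd.sub_const 1).differentiableOn
    · apply DifferentiableOn.mul
      · exact DifferentiableOn.comp (g := TT M) (f := fun z : (Fin k → ℂ) × ℂ => z.1) (TT_diff k M hM)
          differentiable_fst.differentiableOn (fun z hz => hsub hz)
      · exact (Z1_diff.comp differentiable_snd).differentiableOn
  · exact hP.differentiableOn

theorem Fx_loc (k M : ℕ) (hM : 1 ≤ M) (T : Set ((Fin k → ℝ) × ℝ)) (hT : Gd M T) (P : (Fin k → ℂ) × ℂ → ℂ) (m : ℕ)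
    (hP : ∀ z, ‖P z‖ ≤ ((k + 1) * (1 + ‖z.1‖ + ‖z.2‖)) ^ m) (p : (Fin k → ℝ) × ℝ) (hp : p ∈ Ab T) :
    ∃ U : Set ((Fin k → ℝ) × ℝ), U ∈ 𝓝 p ∧ ∃ (C : ℝ) (N : ℕ), 0 < C ∧
      ∀ z : (Fin k → ℂ) × ℂ, rez z ∈ U → ‖Fx M P z‖ ≤ C * (1 + ‖imz z‖) ^ N := by
  obtain ⟨U, hU1, hU2, hU3, hU5, R, C, A, r, hC, hr0, hr1, hR, hU4⟩ := loc k M hM T hT p hp
  have h1r : 0 < (1 - r)⁻¹ := inv_pos.2 (by linarith)
  refine ⟨U, hU1.mem_nhds hU2, (C * (1 - r)⁻¹ + C * 4) * ((k + 1) ^ m) * (2 + 2 * R) ^ (A + 2 + m),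
    A + 2 + m, by positivity, ?_⟩
  intro z hz
  obtain ⟨h1, h2, h3⟩ := hU4 z hz
  obtain ⟨S, hS⟩ : ∃ S, S = 1 + ‖z.1‖ + ‖z.2‖ := ⟨_, rfl⟩
  have hS1 : 1 ≤ S := by rw [hS]; linarith [norm_nonneg z.1, norm_nonneg z.2]
  have hre : (1 / 2 : ℝ) < z.2.re := (hU5 _ hz).2
  have hsum : ‖∑' j, EE M j z.1 z.2‖ ≤ C * S ^ A * (1 - r)⁻¹ := by
    have h4 : HasSum (fun j : ℕ => C * S ^ A * r ^ j) (C * S ^ A * (1 - r)⁻¹) :=
      (hasSum_geometric_of_lt_one hr0.le hr1).mul_left _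
    exact tsum_of_norm_bounded h4 (fun j => by rw [hS]; exact h3 j)
  have hw1 : ‖z.2 - 1‖ ≤ S := by
    have := norm_sub_le z.2 1
    rw [norm_one] at this
    rw [hS]
    linarith [norm_nonneg z.1]
  have hZ : ‖Z1 z.2‖ ≤ 4 * S ^ 2 := by
    refine (Z1_bound hre.le).trans ?_
    have : 1 + ‖z.2‖ ≤ S := by rw [hS]; linarith [norm_nonneg z.1]
    gcongr
  have hPJ := hP z
  rw [← hS] at hPJ
  have hmain : ‖Fx M P z‖ ≤ (C * (1 - r)⁻¹ + C * 4) * (k + 1) ^ m * S ^ (A + 2 + m) := by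
    unfold Fx
    rw [norm_mul]
    have h5 : ‖(z.2 - 1) * ∑' j, EE M j z.1 z.2 + TT M z.1 * Z1 z.2‖ ≤
        (C * (1 - r)⁻¹ + C * 4) * S ^ (A + 2) := by
      refine (norm_add_le _ _).trans ?_
      rw [norm_mul, norm_mul]
      have e1 : ‖z.2 - 1‖ * ‖∑' j, EE M j z.1 z.2‖ ≤ C * (1 - r)⁻¹ * S ^ (A + 2) := by
        calc _ ≤ S * (C * S ^ A * (1 - r)⁻¹) := mul_le_mul hw1 hsum (norm_nonneg _) (by positivity)
          _ = C * (1 - r)⁻¹ * S ^ (A + 1) := by ring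
          _ ≤ C * (1 - r)⁻¹ * S ^ (A + 2) := by
              have : S ^ (A + 1) ≤ S ^ (A + 2) := pow_le_pow_right₀ hS1 (by omega)
              gcongr
      have e2 : ‖TT M z.1‖ * ‖Z1 z.2‖ ≤ C * 4 * S ^ (A + 2) := by
        calc _ ≤ C * (4 * S ^ 2) := mul_le_mul h2 hZ (norm_nonneg _) hC.le
          _ = C * 4 * S ^ 2 := by ring
          _ ≤ _ := by
              have : S ^ 2 ≤ S ^ (A + 2) := pow_le_pow_right₀ hS1 (by omega)
              gcongr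
      calc _ ≤ C * (1 - r)⁻¹ * S ^ (A + 2) + C * 4 * S ^ (A + 2) := add_le_add e1 e2
        _ = _ := by ring
    calc _ ≤ ((C * (1 - r)⁻¹ + C * 4) * S ^ (A + 2)) * ((k + 1) * S) ^ m :=
          mul_le_mul h5 hPJ (norm_nonneg _) (by positivity)
      _ = _ := by rw [mul_pow, pow_add S (A + 2) m]; ring
  have hSim : S ≤ (2 + 2 * R) * (1 + ‖imz z‖) := by
    have e1 : ‖z.1‖ ≤ ‖rez z‖ + ‖imz z‖ := by
      rw [pi_norm_le_iff_of_nonneg (by positivity)]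
      intro i
      refine (Complex.norm_le_abs_re_add_abs_im _).trans ?_
      have e3 : |(z.1 i).re| ≤ ‖rez z‖ := (norm_le_pi_norm (rez z).1 i).trans (norm_fst_le (rez z))
      have e4 : |(z.1 i).im| ≤ ‖imz z‖ := (norm_le_pi_norm (imz z).1 i).trans (norm_fst_le (imz z))
      linarith
    have e2 : ‖z.2‖ ≤ ‖rez z‖ + ‖imz z‖ := by
      refine (Complex.norm_le_abs_re_add_abs_im _).trans ?_
      have e3 : |z.2.re| ≤ ‖rez z‖ := norm_snd_le (rez z)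
      have e4 : |z.2.im| ≤ ‖imz z‖ := norm_snd_le (imz z)
      linarith
    have e5 := norm_nonneg (imz z)
    rw [hS]
    nlinarith
  refine hmain.trans ?_
  calc _ ≤ (C * (1 - r)⁻¹ + C * 4) * (k + 1) ^ m * ((2 + 2 * R) * (1 + ‖imz z‖)) ^ (A + 2 + m) := by
        gcongr
    _ = _ := by rw [mul_pow]; ring

theorem Fx_poly (k M : ℕ) (hM : 1 ≤ M) (S : Set ((Fin k → ℝ) × ℝ)) (hS : Gd M S) (P : (Fin k → ℂ) × ℂ → ℂ) (m : ℕ)
    (hP : ∀ z, ‖P z‖ ≤ ((k + 1) * (1 + ‖z.1‖ + ‖z.2‖)) ^ m)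
    (K : Set ((Fin k → ℝ) × ℝ)) (hK : IsCompact K)
    (hKO : K ⊆ Ab S) : ∃ (C : ℝ) (N : ℕ), ∀ z : (Fin k → ℂ) × ℂ, rez z ∈ K →
      ‖Fx M P z‖ ≤ C * (1 + ‖imz z‖) ^ N := by
  have key : ∃ (C : ℝ) (N : ℕ), 0 < C ∧ ∀ z : (Fin k → ℂ) × ℂ, rez z ∈ K →
      ‖Fx M P z‖ ≤ C * (1 + ‖imz z‖) ^ N := by
    refine hK.induction_on (p := fun U => ∃ (C : ℝ) (N : ℕ), 0 < C ∧ ∀ z : (Fin k → ℂ) × ℂ,
      rez z ∈ U → ‖Fx M P z‖ ≤ C * (1 + ‖imz z‖) ^ N) ?_ ?_ ?_ ?_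
    · exact ⟨1, 0, one_pos, fun z hz => absurd hz (Set.notMem_empty _)⟩
    · rintro s t hst ⟨C, N, hC, h⟩
      exact ⟨C, N, hC, fun z hz => h z (hst hz)⟩
    · rintro s t ⟨C1, N1, hC1, h1⟩ ⟨C2, N2, hC2, h2⟩
      refine ⟨C1 + C2, N1 + N2, by positivity, fun z hz => ?_⟩
      have h0 : 1 ≤ 1 + ‖imz z‖ := by linarith [norm_nonneg (imz z)]
      rcases hz with hz | hz
      · refine (h1 z hz).trans ?_
        have : (1 + ‖imz z‖) ^ N1 ≤ (1 + ‖imz z‖) ^ (N1 + N2) := pow_le_pow_right₀ h0 (by omega)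
        gcongr
        linarith
      · refine (h2 z hz).trans ?_
        have : (1 + ‖imz z‖) ^ N2 ≤ (1 + ‖imz z‖) ^ (N1 + N2) := pow_le_pow_right₀ h0 (by omega)
        gcongr
        linarith
    · intro p hp
      obtain ⟨U, hU, C, N, hC, h⟩ := Fx_loc k M hM S hS P m hP p (hKO hp)
      exact ⟨U, mem_nhdsWithin_of_mem_nhds hU, C, N, hC, h⟩
  obtain ⟨C, N, _, h⟩ := key
  exact ⟨C, N, h⟩


end Pool.Agent.W5h65.LH
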