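import Pool.Agent.W5h65.LH.F1

set_option autoImplicit false

/-! The moment bound gives a good point. -/

namespace Pool.Agent.W5h65.LH

open Finset Filter Topology MeasureTheory
open Pool.Agent.W5h65.MD hiding loc Fx_diff Fx_loc Fx_poly

open Classical in
/-- Lindelöf on average for the `2m`-th moment, to the right of the critical line -/
def Mom (m : ℕ) : Prop := ∀ ε B : ℝ, 0 < ε → ∃ (C : ℝ) (A : ℕ), ∀ (X : ℕ) (s : ℂ), 1 ≤ X →
  1 / 2 + ε ≤ s.re → s.re ≤ B →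
  ∑ d ∈ (Icc 2 X).filter IsFund, ‖Ld d s‖ ^ (2 * m) ≤ C * (1 + ‖s‖) ^ A * (X : ℝ) ^ (1 + ε)

lemma prod_le_sum {k n : ℕ} (hn : k ≤ n) (x : Fin k → ℝ) (hx : ∀ i, 0 ≤ x i) :
    ∏ i, x i ≤ 1 + ∑ i, x i ^ n := by
  rcases Nat.eq_zero_or_pos k with h | h
  · subst h
    simp
  · have : Nonempty (Fin k) := ⟨⟨0, h⟩⟩
    obtain ⟨i0, _, h0⟩ := exists_max_image univ x univ_nonempty
    have h1 : x i0 ^ k ≤ 1 + x i0 ^ n := by
      rcases le_total (x i0) 1 with h2 | h2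
      · have h3 : x i0 ^ k ≤ 1 := pow_le_one₀ (hx i0) h2
        have h4 : 0 ≤ x i0 ^ n := pow_nonneg (hx i0) n
        linarith
      · have h3 : x i0 ^ k ≤ x i0 ^ n := pow_le_pow_right₀ h2 hn
        linarith
    calc ∏ i, x i ≤ ∏ _i : Fin k, x i0 := prod_le_prod (fun i _ => hx i) fun i _ => h0 i (mem_univ i)
      _ = x i0 ^ k := by simp
      _ ≤ 1 + x i0 ^ n := h1
      _ ≤ _ := by
          have := single_le_sum (f := fun i => x i ^ n) (fun i _ => pow_nonneg (hx i) n) (mem_univ i0)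
          linarith

theorem corner_mom (k m : ℕ) (hkm : k ≤ 2 * m) (hMom : Mom m) (M : ℕ) (hM : 1 ≤ M) :
    Good (EE (k := k) M) (fun _ => 1 / 2, 1) := by
  classical
  intro ε B hε
  obtain ⟨C, A, h⟩ := hMom ε B hε
  obtain ⟨CT, hCT, hT⟩ := TT_bound k ε hε M hM
  obtain ⟨D, hD⟩ : ∃ D : ℝ, D = max C 1 := ⟨_, rfl⟩
  have hD1 : 1 ≤ D := by rw [hD]; exact le_max_right _ _
  have hCD : C ≤ D := by rw [hD]; exact le_max_left _ _
  refine ⟨2 ^ B * ((1 + k) * D * 2 ^ (1 + ε)) + CT * 4 * 2 ^ B, A, by positivity, ?_⟩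
  intro j s w hs hsB hw
  have hs' : ∀ i, 1 / 2 + ε ≤ (s i).re := hs
  obtain ⟨W, hW⟩ : ∃ W : ℝ, W = 2 ^ B * ((2 : ℝ) ^ j) ^ (-w.re) := ⟨_, rfl⟩
  have hW0 : 0 < W := by rw [hW]; positivity
  have h2j : (1 : ℝ) ≤ 2 ^ j := one_le_pow₀ (by norm_num)
  have hS1 : 1 ≤ (1 + ‖s‖ + ‖w‖) ^ A := one_le_pow₀ (by linarith [norm_nonneg s, norm_nonneg w])
  have hexp : (2 : ℝ) ^ ((j : ℝ) * (1 + ε - w.re)) = ((2 : ℝ) ^ j) ^ (1 + ε) * ((2 : ℝ) ^ j) ^ (-w.re) := by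
    rw [← Real.rpow_add (by positivity), two_pow_rpow]
    congr 1
  have hAB : ‖AB M s w j‖ ≤ W * ((1 + k) * D * 2 ^ (1 + ε)) * ((1 + ‖s‖ + ‖w‖) ^ A * ((2 : ℝ) ^ j) ^ (1 + ε)) := by
    rw [AB_fin]
    obtain ⟨f, hf⟩ : ∃ f : ℕ → ℝ, f = fun d => if IsFund d ∧ 1 < d then ∏ i, ‖Ld d (s i)‖ else 0 :=
      ⟨_, rfl⟩
    have e1 : ∀ d ∈ range (2 ^ (j + 1) + 1), ‖PH (d / 2 ^ j) * gd M s w d‖ ≤ W * f d := by
      intro d _
      unfold gd
      rw [hf]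
      by_cases h7 : IsFund d ∧ 1 < d
      · simp only [if_pos h7]
        have e3 : PH (d / 2 ^ j) * (((kr d M : ℤ) : ℂ) * (d : ℂ) ^ (-w) * ∏ i, Ld d (s i)) =
            ((kr d M : ℤ) : ℂ) * (PH (d / 2 ^ j) * (d : ℂ) ^ (-w)) * ∏ i, Ld d (s i) := by ring
        rw [e3, norm_mul, norm_mul, norm_prod]
        apply mul_le_mul_of_nonneg_right _ (prod_nonneg fun _ _ => norm_nonneg _)
        refine (mul_le_of_le_one_left (norm_nonneg _) (kr_norm d M)).trans ?_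
        rw [hW]
        exact wt hw (by omega) j
      · simp only [if_neg h7]
        simp
    refine (norm_sum_le _ _).trans ((sum_le_sum e1).trans ?_)
    rw [← mul_sum]
    have e2 : ∑ d ∈ range (2 ^ (j + 1) + 1), f d ≤
        ∑ d ∈ (Icc 2 (2 ^ (j + 1))).filter IsFund, ∏ i, ‖Ld d (s i)‖ := by
      rw [hf]
      rw [← sum_filter]
      apply sum_le_sum_of_subset_of_nonneg
      · intro d hd
        rw [mem_filter, mem_range] at hd
        rw [mem_filter, mem_Icc]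
        exact ⟨⟨hd.2.2, by omega⟩, hd.2.1⟩
      · intro d _ _
        exact prod_nonneg fun _ _ => norm_nonneg _
    have hcard : (((Icc 2 (2 ^ (j + 1))).filter IsFund).card : ℝ) ≤ ((2 ^ (j + 1) : ℕ) : ℝ) := by
      have : ((Icc 2 (2 ^ (j + 1))).filter IsFund).card ≤ 2 ^ (j + 1) := by
        refine (card_filter_le _ _).trans ?_
        rw [Nat.card_Icc]
        generalize 2 ^ (j + 1) = y
        omega
      exact_mod_cast this
    have hXpow : ((2 ^ (j + 1) : ℕ) : ℝ) ≤ (((2 ^ (j + 1) : ℕ) : ℝ)) ^ (1 + ε) := by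
      have h1 : (1 : ℝ) ≤ ((2 ^ (j + 1) : ℕ) : ℝ) := by exact_mod_cast Nat.one_le_two_pow
      calc ((2 ^ (j + 1) : ℕ) : ℝ) = (((2 ^ (j + 1) : ℕ) : ℝ)) ^ (1 : ℝ) := (Real.rpow_one _).symm
        _ ≤ _ := Real.rpow_le_rpow_of_exponent_le h1 (by linarith)
    have e3 : ∑ d ∈ (Icc 2 (2 ^ (j + 1))).filter IsFund, ∏ i, ‖Ld d (s i)‖ ≤
        (1 + k) * (D * (1 + ‖s‖ + ‖w‖) ^ A * (((2 ^ (j + 1) : ℕ) : ℝ)) ^ (1 + ε)) := by
      calc _ ≤ ∑ d ∈ (Icc 2 (2 ^ (j + 1))).filter IsFund, (1 + ∑ i, ‖Ld d (s i)‖ ^ (2 * m)) :=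
            sum_le_sum fun d _ => prod_le_sum hkm _ fun _ => norm_nonneg _
        _ = (((Icc 2 (2 ^ (j + 1))).filter IsFund).card : ℝ) +
            ∑ i, ∑ d ∈ (Icc 2 (2 ^ (j + 1))).filter IsFund, ‖Ld d (s i)‖ ^ (2 * m) := by
            rw [sum_add_distrib, sum_comm]
            simp
        _ ≤ D * (1 + ‖s‖ + ‖w‖) ^ A * (((2 ^ (j + 1) : ℕ) : ℝ)) ^ (1 + ε) +
            ∑ _i : Fin k, D * (1 + ‖s‖ + ‖w‖) ^ A * (((2 ^ (j + 1) : ℕ) : ℝ)) ^ (1 + ε) := by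
            apply add_le_add
            · refine (hcard.trans hXpow).trans ?_
              have : 1 ≤ D * (1 + ‖s‖ + ‖w‖) ^ A := one_le_mul_of_one_le_of_one_le hD1 hS1
              exact le_mul_of_one_le_left (by positivity) this
            · refine sum_le_sum fun i _ => ?_
              have e4 := h (2 ^ (j + 1)) (s i) Nat.one_le_two_pow (hs' i) (hsB i)
              refine e4.trans ?_
              have e5 : ‖s i‖ ≤ ‖s‖ + ‖w‖ := by linarith [norm_le_pi_norm s i, norm_nonneg w]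
              have e6 : (1 + ‖s i‖) ^ A ≤ (1 + ‖s‖ + ‖w‖) ^ A :=
                pow_le_pow_left₀ (by positivity) (by linarith) A
              gcongr
        _ = _ := by
            rw [sum_const, card_univ, Fintype.card_fin, nsmul_eq_mul]
            ring
    have e4 : (((2 ^ (j + 1) : ℕ) : ℝ)) ^ (1 + ε) = 2 ^ (1 + ε) * ((2 : ℝ) ^ j) ^ (1 + ε) := by
      push_cast
      rw [pow_succ, Real.mul_rpow (by positivity) (by norm_num)]
      ring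
    rw [e4] at e3
    calc W * ∑ d ∈ range (2 ^ (j + 1) + 1), f d ≤ W * ((1 + (k : ℝ)) * (D * (1 + ‖s‖ + ‖w‖) ^ A *
          (2 ^ (1 + ε) * ((2 : ℝ) ^ j) ^ (1 + ε)))) :=
          mul_le_mul_of_nonneg_left (e2.trans e3) hW0.le
      _ = _ := by ring
  have hTZ : ‖TT M s * ZZ w (2 ^ j)‖ ≤ CT * 4 * W * ((1 + ‖s‖ + ‖w‖) ^ A * ((2 : ℝ) ^ j) ^ (1 + ε)) := by
    rw [norm_mul]
    have e1 : (2 : ℝ) ^ j ≤ ((2 : ℝ) ^ j) ^ (1 + ε) := by
      calc (2 : ℝ) ^ j = ((2 : ℝ) ^ j) ^ (1 : ℝ) := (Real.rpow_one _).symm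
        _ ≤ _ := Real.rpow_le_rpow_of_exponent_le h2j (by linarith)
    calc _ ≤ CT * (4 * 2 ^ j * (2 ^ B * ((2 : ℝ) ^ j) ^ (-w.re))) :=
          mul_le_mul (hT s hs') (ZZ_norm hw j) (norm_nonneg _) hCT.le
      _ = CT * 4 * W * (2 : ℝ) ^ j := by rw [hW]; ring
      _ ≤ CT * 4 * W * (1 * ((2 : ℝ) ^ j) ^ (1 + ε)) := by
          rw [one_mul]
          gcongr
      _ ≤ _ := by gcongr
  unfold EE
  rw [hexp]
  calc _ ≤ W * ((1 + k) * D * 2 ^ (1 + ε)) * ((1 + ‖s‖ + ‖w‖) ^ A * ((2 : ℝ) ^ j) ^ (1 + ε)) +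
        CT * 4 * W * ((1 + ‖s‖ + ‖w‖) ^ A * ((2 : ℝ) ^ j) ^ (1 + ε)) :=
        (norm_sub_le _ _).trans (add_le_add hAB hTZ)
    _ = _ := by
        rw [hW]
        ring

/-- the segment between `(1, …, 1; 1/2)` and `(1/2, …, 1/2; 1)` -/
def Sg (k : ℕ) : Set ((Fin k → ℝ) × ℝ) :=
  {q | ∃ t : ℝ, 0 ≤ t ∧ t ≤ 1 ∧ q = (fun _ => 1 - t / 2, 1 / 2 + t / 2)}

theorem Sg_good (k m : ℕ) (hkm : k ≤ 2 * m) (hMom : Mom m) (M : ℕ) (hM : 1 ≤ M) :
    Gd M (Sg k) := by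
  rintro q ⟨t, ht0, ht1, rfl⟩
  have hc := EE_convex k M hM
  have h1 : ((fun _ => 1, 1 / 2) : (Fin k → ℝ) × ℝ) ∈
      {p : (Fin k → ℝ) × ℝ | (∀ i, 1 / 2 ≤ p.1 i) ∧ Good (EE (k := k) M) p} :=
    ⟨fun _ => by norm_num, corner_one k M hM⟩
  have h2 : ((fun _ => 1 / 2, 1) : (Fin k → ℝ) × ℝ) ∈
      {p : (Fin k → ℝ) × ℝ | (∀ i, 1 / 2 ≤ p.1 i) ∧ Good (EE (k := k) M) p} :=
    ⟨fun _ => by norm_num, corner_mom k m hkm hMom M hM⟩
  have h3 := hc h1 h2 (show 0 ≤ 1 - t by linarith) ht0 (by ring)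
  have h4 : (1 - t) • ((fun _ => 1, 1 / 2) : (Fin k → ℝ) × ℝ) +
      t • ((fun _ => 1 / 2, 1) : (Fin k → ℝ) × ℝ) = (fun _ => 1 - t / 2, 1 / 2 + t / 2) := by
    ext
    · simp
      ring
    · simp
      ring
  rw [h4] at h3
  refine ⟨h3, ?_⟩
  show 1 / 2 ≤ 1 / 2 + t / 2
  linarith

/-- the explicit domain -/
def Omi (k : ℕ) : Set ((Fin k → ℝ) × ℝ) :=
  {p | 1 / 2 < p.2 ∧ ∀ i, 1 - min 1 (2 * p.2 - 1) / 2 < p.1 i}

theorem Omi_sub (k : ℕ) : Omi k ⊆ Ab (Sg k) := by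
  rintro p ⟨h0, h1⟩
  have hτ : 0 < min 1 (2 * p.2 - 1) := lt_min one_pos (by linarith)
  obtain ⟨t, ht, ht2, h2⟩ : ∃ t > 0, t < min 1 (2 * p.2 - 1) ∧ ∀ i, 1 - t / 2 < p.1 i := by
    have h2 : ∀ᶠ η : ℝ in 𝓝[>] 0, (0 < min 1 (2 * p.2 - 1) - η) ∧
        ∀ i, 1 - (min 1 (2 * p.2 - 1) - η) / 2 < p.1 i := by
      apply Filter.Eventually.and
      · have : ∀ᶠ ε : ℝ in 𝓝[>] 0, ε < min 1 (2 * p.2 - 1) :=
          (eventually_lt_nhds hτ).filter_mono nhdsWithin_le_nhds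
        filter_upwards [this] with ε hε
        linarith
      · rw [eventually_all]
        intro i
        have : ∀ᶠ ε : ℝ in 𝓝[>] 0, ε < 2 * (p.1 i - (1 - min 1 (2 * p.2 - 1) / 2)) :=
          (eventually_lt_nhds (by linarith [h1 i])).filter_mono nhdsWithin_le_nhds
        filter_upwards [this] with ε hε
        linarith
    obtain ⟨η, ⟨h3, h4⟩, h5⟩ := (h2.and self_mem_nhdsWithin).exists
    have h5' : 0 < η := h5
    exact ⟨min 1 (2 * p.2 - 1) - η, h3, by linarith, h4⟩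
  refine ⟨_, ⟨t, ht.le, ht2.le.trans (min_le_left _ _), rfl⟩, h2, ?_⟩
  show 1 / 2 + t / 2 < p.2
  have := min_le_right 1 (2 * p.2 - 1)
  linarith

theorem Omi_open (k : ℕ) : IsOpen (Omi k) := by
  have e : Omi k = {p : (Fin k → ℝ) × ℝ | 1 / 2 < p.2} ∩
      (⋂ i, {p | 1 - min 1 (2 * p.2 - 1) / 2 < p.1 i}) := by
    ext p
    simp [Omi]
  rw [e]
  apply IsOpen.inter
  · exact isOpen_lt continuous_const continuous_snd
  · exact isOpen_iInter_of_finite fun i => isOpen_lt (by fun_prop) (by fun_prop)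

theorem Omi_convex (k : ℕ) : Convex ℝ (Omi k) := by
  rintro p ⟨p0, p1⟩ q ⟨q0, q1⟩ a b ha hb hab
  have hmin : a * min 1 (2 * p.2 - 1) + b * min 1 (2 * q.2 - 1) ≤
      min 1 (2 * (a * p.2 + b * q.2) - 1) := by
    apply le_min
    · have h1 := mul_le_mul_of_nonneg_left (min_le_left 1 (2 * p.2 - 1)) ha
      have h2 := mul_le_mul_of_nonneg_left (min_le_left 1 (2 * q.2 - 1)) hb
      linarith
    · have h1 := mul_le_mul_of_nonneg_left (min_le_right 1 (2 * p.2 - 1)) ha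
      have h2 := mul_le_mul_of_nonneg_left (min_le_right 1 (2 * q.2 - 1)) hb
      linarith
  have hlt : ∀ u u' v v' : ℝ, u < u' → v < v' → a * u + b * v < a * u' + b * v' := by
    intro u u' v v' hu hv
    rcases ha.eq_or_lt with h | h
    · have h' : b = 1 := by linarith
      rw [← h, h']
      linarith
    · have h1 := mul_lt_mul_of_pos_left hu h
      have h2 := mul_le_mul_of_nonneg_left hv.le hb
      linarith
  show 1 / 2 < (a • p + b • q).2 ∧ (∀ i, 1 - min 1 (2 * (a • p + b • q).2 - 1) / 2 <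
    (a • p + b • q).1 i)
  simp only [Prod.fst_add, Prod.smul_fst, Pi.add_apply, Pi.smul_apply, smul_eq_mul, Prod.snd_add,
    Prod.smul_snd]
  refine ⟨?_, fun i => ?_⟩
  · have := hlt _ _ _ _ p0 q0
    linarith
  · have := hlt _ _ _ _ (p1 i) (q1 i)
    linarith

theorem Omi_right (k : ℕ) (p : (Fin k → ℝ) × ℝ) (h1 : ∀ i, 1 < p.1 i) (h2 : 1 / 2 < p.2) :
    p ∈ Omi k := by
  have hτ : 0 < min 1 (2 * p.2 - 1) := lt_min one_pos (by linarith)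
  exact ⟨h2, fun i => by linarith [h1 i]⟩

theorem Omi_connected (k : ℕ) : IsConnected (Omi k) :=
  ⟨⟨(fun _ => 2, 1), Omi_right k _ (fun _ => by norm_num) (by norm_num)⟩,
    (Omi_convex k).isPreconnected⟩

theorem Omi_closure (k : ℕ) : ((fun _ => 1 / 2, 1) : (Fin k → ℝ) × ℝ) ∈ closure (Omi k) := by
  have hlim : Tendsto (fun ε : ℝ => ((fun _ => 1 / 2 + ε, 1 + ε) : (Fin k → ℝ) × ℝ)) (𝓝[>] 0)
      (𝓝 ((fun _ => 1 / 2, 1) : (Fin k → ℝ) × ℝ)) := by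
    have hc : Continuous (fun ε : ℝ => ((fun _ => 1 / 2 + ε, 1 + ε) : (Fin k → ℝ) × ℝ)) := by
      fun_prop
    have := hc.tendsto 0
    simp only [add_zero] at this
    exact this.mono_left nhdsWithin_le_nhds
  refine mem_closure_of_tendsto hlim ?_
  filter_upwards [self_mem_nhdsWithin] with ε hε
  have hε' : 0 < ε := hε
  have hτ : min 1 (2 * (1 + ε) - 1) = 1 := min_eq_left (by linarith)
  refine ⟨?_, fun i => ?_⟩
  · show 1 / 2 < 1 + ε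
    linarith
  · show 1 - min 1 (2 * (1 + ε) - 1) / 2 < 1 / 2 + ε
    rw [hτ]
    linarith

end Pool.Agent.W5h65.LH
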