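import Pool.Agent.W5h65.LH.F2

set_option autoImplicit false

/-! Complex conjugation, identity theorem in tubes, absolute convergence far to the right in `w`. -/

namespace Pool.Agent.W5h65.LH

open Finset Filter Topology MeasureTheory
open Pool.Agent.W5h65.MD hiding loc Fx_diff Fx_loc Fx_poly

lemma nat_conj (m : ℕ) (s : ℂ) : (m : ℂ) ^ (-(starRingEnd ℂ s)) = starRingEnd ℂ ((m : ℂ) ^ (-s)) := by
  rw [← map_neg, Complex.cpow_conj, Complex.conj_natCast]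
  rw [Complex.natCast_arg]
  exact Real.pi_ne_zero.symm

lemma Lp_conj (d j : ℕ) (s : ℂ) : Lp d (starRingEnd ℂ s) j = starRingEnd ℂ (Lp d s j) := by
  rw [Lp_fin, Lp_fin, map_sum]
  refine sum_congr rfl fun m _ => ?_
  rw [map_mul]
  have h1 : starRingEnd ℂ (PH (m / 2 ^ j)) = PH (m / 2 ^ j) := by
    unfold PH
    exact Complex.conj_ofReal _
  rw [h1]
  split_ifs
  · rw [map_mul, nat_conj, map_intCast]
  · rw [map_zero]

lemma Ld_conj (d : ℕ) (s : ℂ) : Ld d (starRingEnd ℂ s) = starRingEnd ℂ (Ld d s) := by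
  unfold Ld Lo
  rw [map_mul, map_inv₀, map_sub, map_one, map_mul, map_intCast]
  have h1 : ((2 : ℂ)) ^ (-(starRingEnd ℂ s)) = starRingEnd ℂ ((2 : ℂ) ^ (-s)) := by
    have := nat_conj 2 s
    push_cast at this
    exact this
  rw [h1]
  congr 1
  have h2 : starRingEnd ℂ (∑' j, Lp d s j) = ∑' j, starRingEnd ℂ (Lp d s j) := tsum_star
  rw [h2]
  exact tsum_congr fun j => Lp_conj d j s

theorem ident {k : ℕ} {W V : Set ((Fin k → ℝ) × ℝ)} (hW : IsOpen W) (hWc : Convex ℝ W)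
    (hV : IsOpen V) (hVW : V ⊆ W) (hne : V.Nonempty) {f g : (Fin k → ℂ) × ℂ → ℂ}
    (hf : DifferentiableOn ℂ f (tube W)) (hg : DifferentiableOn ℂ g (tube W))
    (h : ∀ z ∈ tube V, f z = g z) : ∀ z ∈ tube W, f z = g z := by
  intro z hz
  obtain ⟨p, hp⟩ := hne
  obtain ⟨z1, hz1⟩ : ∃ z1 : (Fin k → ℂ) × ℂ, z1 = (fun i => (p.1 i : ℂ), (p.2 : ℂ)) := ⟨_, rfl⟩
  have hr1 : rez z1 = p := by
    rw [hz1]
    unfold rez
    simp
  have hz1V : z1 ∈ tube V := by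
    show rez z1 ∈ V
    rw [hr1]
    exact hp
  obtain ⟨l, hl⟩ : ∃ l : ℂ → (Fin k → ℂ) × ℂ, l = fun t => z1 + t • (z - z1) := ⟨_, rfl⟩
  have hld : Differentiable ℂ l := by
    rw [hl]
    fun_prop
  have hlc : Continuous l := hld.continuous
  have hU : IsOpen (l ⁻¹' tube W) := (hW.preimage rez_cont).preimage hlc
  have hcx : Convex ℝ (l ⁻¹' tube W) := by
    intro x hx y hy a b ha hb hab
    have e1 := hWc hx hy ha hb hab
    show rez (l (a • x + b • y)) ∈ W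
    have e2 : rez (l (a • x + b • y)) = a • rez (l x) + b • rez (l y) := by
      have hb' : b = 1 - a := by linarith
      rw [hl, hb']
      unfold rez
      ext
      · simp
        ring
      · simp
        ring
    rw [e2]
    exact e1
  have hfd : DifferentiableOn ℂ (fun t => f (l t)) (l ⁻¹' tube W) :=
    hf.comp hld.differentiableOn (fun t ht => ht)
  have hgd : DifferentiableOn ℂ (fun t => g (l t)) (l ⁻¹' tube W) :=
    hg.comp hld.differentiableOn (fun t ht => ht)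
  have hl0 : l 0 = z1 := by rw [hl]; simp
  have hl1 : l 1 = z := by rw [hl]; simp
  have h0 : (0 : ℂ) ∈ l ⁻¹' tube W := by
    show l 0 ∈ tube W
    rw [hl0]
    exact hVW hz1V
  have key := (hfd.analyticOnNhd hU).eqOn_of_preconnected_of_eventuallyEq (hgd.analyticOnNhd hU)
    hcx.isPreconnected h0 (by
      have e1 : l ⁻¹' tube V ∈ 𝓝 (0 : ℂ) := by
        apply ((hV.preimage rez_cont).preimage hlc).mem_nhds
        show l 0 ∈ tube V
        rw [hl0]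
        exact hz1V
      filter_upwards [e1] with t ht
      exact h _ ht)
  have h1 : (1 : ℂ) ∈ l ⁻¹' tube W := by
    show l 1 ∈ tube W
    rw [hl1]
    exact hz
  have := key h1
  simp only [hl1] at this
  exact this

theorem Ld_crude (ε B : ℝ) (hε : 0 < ε) (hε1 : ε ≤ 1) : ∃ (C : ℝ) (A : ℕ), 0 < C ∧
    ∀ (d : ℕ) (s : ℂ), IsFund d → 1 < d → 1 / 2 + ε ≤ s.re → s.re ≤ B →
    ‖Ld d s‖ ≤ C * (1 + ‖s‖) ^ A * (d : ℝ) ^ (2 : ℝ) := by
  classical
  obtain ⟨C, A, hC, h⟩ := mom_fund ε B hε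
  refine ⟨4 * (1 + C), A, by positivity, ?_⟩
  intro d s hd h1 hs1 hs2
  have hd1 : (1 : ℝ) ≤ d := by exact_mod_cast h1.le
  have hs0 : 1 ≤ (1 + ‖s‖) ^ A := one_le_pow₀ (by linarith [norm_nonneg s])
  have hd2 : (1 : ℝ) ≤ (d : ℝ) ^ (2 : ℝ) := Real.one_le_rpow hd1 (by norm_num)
  have e3 : ‖Lo d s‖ ^ 4 ≤ C * (1 + ‖s‖) ^ A * (d : ℝ) ^ (1 + ε) := by
    refine le_trans ?_ (h d s h1.le hs1 hs2)
    apply single_le_sum (f := fun d => ‖Lo d s‖ ^ 4) (fun d _ => by positivity)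
    rw [mem_filter, mem_Icc]
    exact ⟨⟨h1, le_refl d⟩, hd⟩
  have e4 : ‖Lo d s‖ ≤ 1 + ‖Lo d s‖ ^ 4 := by
    rcases le_total ‖Lo d s‖ 1 with h5 | h5
    · have : 0 ≤ ‖Lo d s‖ ^ 4 := by positivity
      linarith
    · have : ‖Lo d s‖ ^ 1 ≤ ‖Lo d s‖ ^ 4 := pow_le_pow_right₀ h5 (by norm_num)
      rw [pow_one] at this
      linarith
  have e5 : (d : ℝ) ^ (1 + ε) ≤ (d : ℝ) ^ (2 : ℝ) :=
    Real.rpow_le_rpow_of_exponent_le hd1 (by linarith)
  have e6 : (1 : ℝ) ≤ (1 + ‖s‖) ^ A * (d : ℝ) ^ (2 : ℝ) := one_le_mul_of_one_le_of_one_le hs0 hd2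
  calc _ ≤ 4 * ‖Lo d s‖ := Ld_norm d (by linarith)
    _ ≤ 4 * (1 + C * (1 + ‖s‖) ^ A * (d : ℝ) ^ (1 + ε)) := by linarith
    _ ≤ 4 * ((1 + ‖s‖) ^ A * (d : ℝ) ^ (2 : ℝ) + C * (1 + ‖s‖) ^ A * (d : ℝ) ^ (2 : ℝ)) := by
        gcongr
    _ = _ := by ring

theorem gd_crude (k : ℕ) (ε B : ℝ) (hε : 0 < ε) (hε1 : ε ≤ 1) : ∃ (C : ℝ) (A : ℕ), 0 < C ∧
    ∀ (M d : ℕ) (s : Fin k → ℂ) (w : ℂ), (∀ i, 1 / 2 + ε ≤ (s i).re) → (∀ i, (s i).re ≤ B) →
    ‖gd M s w d‖ ≤ C * (1 + ‖s‖) ^ A * (d : ℝ) ^ (2 * k - w.re) := by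
  obtain ⟨C, A, hC, h⟩ := Ld_crude ε B hε hε1
  refine ⟨C ^ k, A * k, by positivity, ?_⟩
  intro M d s w hs hsB
  unfold gd
  split_ifs with hd
  · have hd0 : (0 : ℝ) < d := by exact_mod_cast (lt_trans one_pos hd.2 : (0:ℕ) < d)
    rw [norm_mul, norm_mul, norm_prod, nat_cpow_norm (by omega)]
    have e1 : ∏ i, ‖Ld d (s i)‖ ≤ (C * (1 + ‖s‖) ^ A * (d : ℝ) ^ (2 : ℝ)) ^ k := by
      calc _ ≤ ∏ _i : Fin k, (C * (1 + ‖s‖) ^ A * (d : ℝ) ^ (2 : ℝ)) := by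
            refine prod_le_prod (fun _ _ => norm_nonneg _) fun i _ => ?_
            refine (h d (s i) hd.1 hd.2 (hs i) (hsB i)).trans ?_
            have := norm_le_pi_norm s i
            gcongr
        _ = _ := by simp
    have e2 : ‖((kr d M : ℤ) : ℂ)‖ * (d : ℝ) ^ (-w.re) ≤ (d : ℝ) ^ (-w.re) :=
      mul_le_of_le_one_left (by positivity) (kr_norm d M)
    calc _ ≤ (d : ℝ) ^ (-w.re) * (C * (1 + ‖s‖) ^ A * (d : ℝ) ^ (2 : ℝ)) ^ k :=
          mul_le_mul e2 e1 (prod_nonneg fun _ _ => norm_nonneg _) (by positivity)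
      _ = C ^ k * (1 + ‖s‖) ^ (A * k) * (((d : ℝ) ^ (2 : ℝ)) ^ k * (d : ℝ) ^ (-w.re)) := by
          rw [mul_pow, mul_pow, ← pow_mul]
          ring
      _ = _ := by
          rw [← Real.rpow_natCast ((d : ℝ) ^ (2 : ℝ)) k, ← Real.rpow_mul hd0.le,
            ← Real.rpow_add hd0]
          congr 1
  · rw [norm_zero]
    positivity

/-- far to the right in `w` -/
def Far (k : ℕ) : Set ((Fin k → ℝ) × ℝ) := {p | (∀ i, 1 / 2 < p.1 i) ∧ 2 * (k : ℝ) + 1 < p.2}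

lemma Far_open (k : ℕ) : IsOpen (Far k) := by
  have e : Far k = (⋂ i, {p : (Fin k → ℝ) × ℝ | 1 / 2 < p.1 i}) ∩ {p | 2 * (k : ℝ) + 1 < p.2} := by
    ext p
    simp [Far]
  rw [e]
  apply IsOpen.inter
  · exact isOpen_iInter_of_finite fun i => isOpen_lt continuous_const (by fun_prop)
  · exact isOpen_lt continuous_const (by fun_prop)

lemma Far_convex (k : ℕ) : Convex ℝ (Far k) := by
  rintro p ⟨p1, p2⟩ q ⟨q1, q2⟩ a b ha hb hab
  have hlt : ∀ c u v : ℝ, c < u → c < v → c < a * u + b * v := by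
    intro c u v hu hv
    have hb' : b = 1 - a := by linarith
    rcases ha.eq_or_lt with h | h
    · have h' : b = 1 := by linarith
      rw [← h, h']
      linarith
    · have h1 := mul_lt_mul_of_pos_left hu h
      have h2 := mul_le_mul_of_nonneg_left hv.le hb
      rw [hb'] at h2 ⊢
      linarith
  refine ⟨fun i => ?_, ?_⟩
  · simp only [Prod.fst_add, Prod.smul_fst, Pi.add_apply, Pi.smul_apply, smul_eq_mul]
    exact hlt _ _ _ (p1 i) (q1 i)
  · simp only [Prod.snd_add, Prod.smul_snd, smul_eq_mul]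
    exact hlt _ _ _ p2 q2

theorem far_diff (k M : ℕ) :
    DifferentiableOn ℂ (fun z : (Fin k → ℂ) × ℂ => ∑' d, gd M z.1 z.2 d) (tube (Far k)) := by
  have hsub : tube (Far k) ⊆ DD k := fun z hz => hz.1
  refine holo_tsum' (fun d => (gd_diff M d).mono hsub) ?_
  rintro z ⟨hz1, hz2⟩
  have hz1' : ∀ i, 1 / 2 < (z.1 i).re := hz1
  have hz2' : 2 * (k : ℝ) + 1 < z.2.re := hz2
  obtain ⟨ε, hε, hε1, h1⟩ : ∃ ε > 0, ε ≤ 1 ∧ ∀ i, 1 / 2 + ε < (z.1 i).re := by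
    have h1 : ∀ᶠ ε : ℝ in 𝓝[>] 0, ε ≤ 1 ∧ ∀ i, 1 / 2 + ε < (z.1 i).re := by
      apply Filter.Eventually.and
      · have : ∀ᶠ ε : ℝ in 𝓝[>] 0, ε < 1 :=
          (eventually_lt_nhds one_pos).filter_mono nhdsWithin_le_nhds
        filter_upwards [this] with ε hε
        exact hε.le
      · rw [eventually_all]
        intro i
        have : ∀ᶠ ε : ℝ in 𝓝[>] 0, ε < (z.1 i).re - 1 / 2 :=
          (eventually_lt_nhds (by linarith [hz1' i])).filter_mono nhdsWithin_le_nhds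
        filter_upwards [this] with ε hε
        linarith
    obtain ⟨δ, ⟨h2, h4⟩, h3⟩ := (h1.and self_mem_nhdsWithin).exists
    exact ⟨δ, h3, h2, h4⟩
  obtain ⟨c, hc1, hc2⟩ := exists_between hz2'
  obtain ⟨B, hB⟩ : ∃ B, B = ‖z‖ + 1 := ⟨_, rfl⟩
  obtain ⟨C, A, hC, h⟩ := gd_crude k ε B hε hε1
  have hB0 : 0 < B := by rw [hB]; positivity
  refine ⟨{z' | (∀ i, 1 / 2 + ε < (z'.1 i).re) ∧ c < z'.2.re} ∩ {z' | ‖z'‖ < B}, ?_, ?_, ?_,
    fun d => C * (1 + B) ^ A * (d : ℝ) ^ (2 * k - c), ?_, ?_⟩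
  · rintro z' ⟨⟨h2, h3⟩, _⟩
    exact ⟨fun i => by
      show 1 / 2 < (z'.1 i).re
      linarith [h2 i], by
      show 2 * (k : ℝ) + 1 < z'.2.re
      linarith⟩
  · apply IsOpen.inter _ (isOpen_lt continuous_norm continuous_const)
    have e : {z' : (Fin k → ℂ) × ℂ | (∀ i, 1 / 2 + ε < (z'.1 i).re) ∧ c < z'.2.re} =
        (⋂ i, {z' | 1 / 2 + ε < (z'.1 i).re}) ∩ {z' | c < z'.2.re} := by
      ext z'
      simp
    rw [e]
    apply IsOpen.inter
    · exact isOpen_iInter_of_finite fun i => isOpen_lt continuous_const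
        (Complex.continuous_re.comp ((continuous_apply i).comp continuous_fst))
    · exact isOpen_lt continuous_const (Complex.continuous_re.comp continuous_snd)
  · refine ⟨⟨h1, hc2⟩, ?_⟩
    show ‖z‖ < B
    rw [hB]
    linarith
  · have : Summable (fun d : ℕ => (d : ℝ) ^ (2 * (k : ℝ) - c)) :=
      Real.summable_nat_rpow.2 (by linarith)
    exact this.mul_left _
  · rintro d z' ⟨⟨h2, h3⟩, h4⟩
    have h4' : ‖z'‖ < B := h4
    have h5 : ‖z'.1‖ ≤ B := (norm_fst_le z').trans h4'.le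
    have h6 := h M d z'.1 z'.2 (fun i => (h2 i).le) (fun i => by
      have e1 := (le_abs_self (z'.1 i).re).trans (Complex.abs_re_le_norm (z'.1 i))
      exact e1.trans ((norm_le_pi_norm z'.1 i).trans h5))
    rcases Nat.eq_zero_or_pos d with h0 | h0
    · subst h0
      have : gd M z'.1 z'.2 0 = 0 := by
        unfold gd
        rw [if_neg (by omega)]
      rw [this, norm_zero]
      positivity
    · refine h6.trans ?_
      have hd1 : (1 : ℝ) ≤ d := by exact_mod_cast h0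
      have e2 : (d : ℝ) ^ (2 * (k : ℝ) - z'.2.re) ≤ (d : ℝ) ^ (2 * (k : ℝ) - c) :=
        Real.rpow_le_rpow_of_exponent_le hd1 (by linarith)
      show _ ≤ C * (1 + B) ^ A * (d : ℝ) ^ (2 * (k : ℝ) - c)
      gcongr

end Pool.Agent.W5h65.LH
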