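import Pool.Agent.W5h65.LH.F3
import Pool.Agent.W61h.Landau

set_option autoImplicit false

/-! From the continuation to the moment bound. -/

namespace Pool.Agent.W5h65.LH

open Finset Filter Topology MeasureTheory
open Pool.Agent.W5h65.MD hiding loc Fx_diff Fx_loc Fx_poly

/-- polynomial bounds in vertical strips -/
def PolyB {k : ℕ} (U : Set ((Fin k → ℝ) × ℝ)) (G : (Fin k → ℂ) × ℂ → ℂ) : Prop :=
  ∀ K ⊆ U, IsCompact K → ∃ (C : ℝ) (N : ℕ), ∀ z : (Fin k → ℂ) × ℂ, rez z ∈ K →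
    ‖G z‖ ≤ C * (1 + ‖imz z‖) ^ N

/-- Bochner's theorem for functions of polynomial growth -/
def Boch (k : ℕ) : Prop := ∀ U : Set ((Fin k → ℝ) × ℝ), IsOpen U → IsPreconnected U →
  ∀ G : (Fin k → ℂ) × ℂ → ℂ, DifferentiableOn ℂ G (tube U) → PolyB U G →
  ∃ H : (Fin k → ℂ) × ℂ → ℂ, DifferentiableOn ℂ H (tube (convexHull ℝ U)) ∧
    PolyB (convexHull ℝ U) H ∧ ∀ z ∈ tube U, H z = G z

noncomputable def PD {k : ℕ} (z : (Fin k → ℂ) × ℂ) : ℂ := ∏ J : Finset (Fin k), (sJ J z - 1)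

lemma PD_diff {k : ℕ} : Differentiable ℂ (PD (k := k)) := by
  have h : DifferentiableOn ℂ (PD (k := k)) Set.univ := by
    unfold PD
    apply diffOn_prod
    intro J _
    exact ((sJ_diff J).sub_const 1).differentiableOn
  exact differentiableOn_univ.1 h

lemma sJ_re {k : ℕ} (J : Finset (Fin k)) (z : (Fin k → ℂ) × ℂ) :
    (sJ J z).re = z.2.re + ∑ j ∈ J, ((z.1 j).re - 1 / 2) := by
  unfold sJ
  rw [Complex.add_re, Complex.sub_re, Complex.re_sum, sum_sub_distrib, sum_const, nsmul_eq_mul]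
  have : ((J.card : ℂ) / 2).re = (J.card : ℝ) / 2 := by
    have e : ((J.card : ℂ) / 2) = (((J.card : ℝ) / 2 : ℝ) : ℂ) := by push_cast; rfl
    rw [e, Complex.ofReal_re]
  rw [this]
  ring

/-- the region to the right of the central point -/
def Dn (k : ℕ) : Set ((Fin k → ℝ) × ℝ) := {p | (∀ i, 1 / 2 < p.1 i) ∧ 1 < p.2}

lemma PD_lower {k : ℕ} {z : (Fin k → ℂ) × ℂ} (hz : rez z ∈ Dn k) :
    (z.2.re - 1) ^ (univ : Finset (Finset (Fin k))).card ≤ ‖PD z‖ := by
  obtain ⟨h1, h2⟩ := hz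
  have h1' : ∀ i, 1 / 2 < (z.1 i).re := h1
  have h2' : 1 < z.2.re := h2
  unfold PD
  rw [norm_prod, ← prod_const]
  apply prod_le_prod (fun _ _ => by linarith)
  intro J _
  have e1 := (le_abs_self (sJ J z - 1).re).trans (Complex.abs_re_le_norm (sJ J z - 1))
  rw [Complex.sub_re, sJ_re, Complex.one_re] at e1
  have e2 : 0 ≤ ∑ j ∈ J, ((z.1 j).re - 1 / 2) := sum_nonneg fun j _ => by linarith [h1' j]
  linarith

lemma PD_ne {k : ℕ} {z : (Fin k → ℂ) × ℂ} (hz : rez z ∈ Dn k) : PD z ≠ 0 := by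
  have h1 := PD_lower hz
  have h2 : 1 < z.2.re := hz.2
  intro h
  rw [h, norm_zero] at h1
  have : 0 < (z.2.re - 1) ^ (univ : Finset (Finset (Fin k))).card := pow_pos (by linarith) _
  linarith

/-- the vector `(s, …, s, conj s, …, conj s, 2, …, 2)` -/
noncomputable def sv (k m : ℕ) (s : ℂ) : Fin k → ℂ :=
  fun i => if i.val < m then s else if i.val < 2 * m then starRingEnd ℂ s else 2

/-- `L(2, χ_d)` -/
noncomputable def l2 (d : ℕ) : ℝ := ∑' n : ℕ, (kr d n : ℝ) / (n : ℝ) ^ 2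

lemma kr_le (d n : ℕ) : -1 ≤ (kr d n : ℝ) := by
  have := kr_abs d n
  rw [abs_le] at this
  exact this.1

lemma l2_summable (d : ℕ) : Summable (fun n : ℕ => (kr d n : ℝ) / (n : ℝ) ^ 2) := by
  refine Summable.of_norm_bounded (g := fun n : ℕ => 1 / (n : ℝ) ^ 2) hasSum_zeta_two.summable ?_
  intro n
  rw [norm_div, Real.norm_eq_abs, norm_pow, Real.norm_natCast]
  exact div_le_div_of_nonneg_right (kr_abs d n) (by positivity)

lemma l2_lower (d : ℕ) : 1 / 3 ≤ l2 d := by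
  have h1 := (l2_summable d).add hasSum_zeta_two.summable
  have h2 : l2 d + Real.pi ^ 2 / 6 = ∑' n : ℕ, ((kr d n : ℝ) / (n : ℝ) ^ 2 + 1 / (n : ℝ) ^ 2) := by
    rw [(l2_summable d).tsum_add hasSum_zeta_two.summable, hasSum_zeta_two.tsum_eq]
    rfl
  have h3 := h1.sum_le_tsum {1} (fun n _ => by
    rw [← add_div]
    apply div_nonneg _ (by positivity)
    linarith [kr_le d n])
  rw [sum_singleton, ← h2, kr_one] at h3
  have h4 := Real.pi_lt_d2
  have h5 := Real.pi_pos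
  push_cast at h3
  nlinarith

lemma Ld_two (d : ℕ) : Ld d 2 = (l2 d : ℂ) := by
  rw [Ld_eq d (by simp)]
  unfold LL l2
  rw [Complex.ofReal_tsum]
  refine tsum_congr fun n => ?_
  rcases Nat.eq_zero_or_pos n with h | h
  · subst h
    simp
  · rw [Complex.cpow_neg]
    push_cast
    rw [div_eq_mul_inv]
    congr 2
    norm_cast

lemma prod_sv (k m d : ℕ) (hk : 2 * m ≤ k) (s : ℂ) :
    ∏ i, Ld d (sv k m s i) = ((‖Ld d s‖ ^ (2 * m) * l2 d ^ (k - 2 * m) : ℝ) : ℂ) := by
  obtain ⟨f, hf⟩ : ∃ f : ℕ → ℂ, f = fun n : ℕ => if n < m then Ld d s else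
    if n < 2 * m then starRingEnd ℂ (Ld d s) else (l2 d : ℂ) := ⟨_, rfl⟩
  have h1 : ∀ i : Fin k, Ld d (sv k m s i) = f i.val := by
    intro i
    rw [hf]
    unfold sv
    simp only
    split_ifs
    · rfl
    · exact Ld_conj d s
    · exact Ld_two d
  obtain ⟨r, rfl⟩ := Nat.exists_eq_add_of_le hk
  rw [prod_congr rfl fun i _ => h1 i, Fin.prod_univ_eq_prod_range f (2 * m + r), prod_range_add,
    two_mul m, prod_range_add]
  have h2 : ∏ x ∈ range m, f x = Ld d s ^ m := by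
    have : ∀ x ∈ range m, f x = Ld d s := by
      intro x hx
      rw [hf]
      simp only
      rw [if_pos (mem_range.1 hx)]
    rw [prod_congr rfl this, prod_const, card_range]
  have h3 : ∏ x ∈ range m, f (m + x) = (starRingEnd ℂ (Ld d s)) ^ m := by
    have : ∀ x ∈ range m, f (m + x) = starRingEnd ℂ (Ld d s) := by
      intro x hx
      rw [mem_range] at hx
      rw [hf]
      simp only
      rw [if_neg (by omega), if_pos (by omega)]
    rw [prod_congr rfl this, prod_const, card_range]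
  have h4 : ∏ x ∈ range r, f (m + m + x) = (l2 d : ℂ) ^ r := by
    have : ∀ x ∈ range r, f (m + m + x) = (l2 d : ℂ) := by
      intro x hx
      rw [hf]
      simp only
      rw [if_neg (by omega), if_neg (by omega)]
    rw [prod_congr rfl this, prod_const, card_range]
  rw [h2, h3, h4, ← mul_pow, Complex.mul_conj, Complex.normSq_eq_norm_sq, Nat.add_sub_cancel_left,
    ← two_mul, pow_mul]
  push_cast
  rfl

open Classical in
/-- the coefficients -/
noncomputable def ac (k m : ℕ) (s : ℂ) (d : ℕ) : ℝ :=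
  if IsFund d ∧ 1 < d then ‖Ld d s‖ ^ (2 * m) * l2 d ^ (k - 2 * m) else 0

lemma gd_sv (k m : ℕ) (hk : 2 * m ≤ k) (s w : ℂ) (d : ℕ) :
    gd 1 (sv k m s) w d = (ac k m s d : ℂ) * (d : ℂ) ^ (-w) := by
  unfold gd ac
  by_cases h : IsFund d ∧ 1 < d
  · rw [if_pos h, if_pos h, prod_sv k m d hk, kr_one]
    push_cast
    ring
  · rw [if_neg h, if_neg h]
    simp

lemma sv_re (k m : ℕ) (s : ℂ) (i : Fin k) : (sv k m s i).re = s.re ∨ (sv k m s i).re = 2 := by
  unfold sv
  split_ifs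
  · left; rfl
  · left; exact Complex.conj_re s
  · right; norm_num

theorem mom_of_ext (k m : ℕ) (hk : 2 * m ≤ k) (hBo : Boch k) (U : Set ((Fin k → ℝ) × ℝ))
    (hU : IsOpen U) (hUc : IsConnected U) (hR : ∀ p : (Fin k → ℝ) × ℝ, (∀ i, 1 < p.1 i) →
      1 < p.2 → p ∈ U) (G : (Fin k → ℂ) × ℂ → ℂ) (hd : DifferentiableOn ℂ G (tube U))
    (heq : ∀ z : (Fin k → ℂ) × ℂ, (∀ i, 1 < (z.1 i).re) → 1 < z.2.re → G z = FM 1 z)
    (hb : PolyB U G) (hcl : ((fun _ => 1 / 2, 1) : (Fin k → ℝ) × ℝ) ∈ closure U) : Mom m := by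
  classical
  obtain ⟨H, hHd, hHb, hHG⟩ := hBo U hU hUc.isPreconnected G hd hb
  obtain ⟨V, hV⟩ : ∃ V, V = convexHull ℝ U := ⟨_, rfl⟩
  have hUV : U ⊆ V := by rw [hV]; exact subset_convexHull ℝ U
  have hVo : IsOpen V := by rw [hV]; exact hU.convexHull
  have hVc : Convex ℝ V := by rw [hV]; exact convex_convexHull ℝ U
  rw [← hV] at hHd hHb
  -- the right region
  have hD : ∀ p : (Fin k → ℝ) × ℝ, p ∈ Dn k → p ∈ V := by
    rintro p ⟨hp1, hp2⟩
    obtain ⟨t, ht0, ht1, ht2⟩ : ∃ t > 0, t < 1 ∧ ∀ i, t < 2 * (p.1 i - 1 / 2) := by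
      have h1 : ∀ᶠ t : ℝ in 𝓝[>] 0, t < 1 ∧ ∀ i, t < 2 * (p.1 i - 1 / 2) := by
        apply Filter.Eventually.and
        · exact (eventually_lt_nhds one_pos).filter_mono nhdsWithin_le_nhds
        · rw [eventually_all]
          intro i
          exact (eventually_lt_nhds (by linarith [hp1 i])).filter_mono nhdsWithin_le_nhds
      obtain ⟨t, ⟨h2, h4⟩, h3⟩ := (h1.and self_mem_nhdsWithin).exists
      exact ⟨t, h3, h2, h4⟩
    have hc : ((fun _ => 1 / 2, 1) : (Fin k → ℝ) × ℝ) ∈ closure V := closure_mono hUV hcl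
    obtain ⟨q, hq⟩ : ∃ q : (Fin k → ℝ) × ℝ,
      q = (fun i => 1 / 2 + (p.1 i - 1 / 2) / t, 1 + (p.2 - 1) / t) := ⟨_, rfl⟩
    have hqV : q ∈ interior V := by
      rw [hVo.interior_eq]
      apply hUV
      apply hR
      · intro i
        rw [hq]
        show 1 < 1 / 2 + (p.1 i - 1 / 2) / t
        have : 1 / 2 < (p.1 i - 1 / 2) / t := by
          rw [lt_div_iff₀ ht0]
          linarith [ht2 i]
        linarith
      · rw [hq]
        show 1 < 1 + (p.2 - 1) / t
        have : 0 < (p.2 - 1) / t := div_pos (by linarith) ht0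
        linarith
    have key := hVc.combo_closure_interior_mem_interior hc hqV (show 0 ≤ 1 - t by linarith) ht0
      (by ring)
    have e1 : (1 - t) • ((fun _ => 1 / 2, 1) : (Fin k → ℝ) × ℝ) + t • q = p := by
      rw [hq]
      ext
      · simp
        field_simp
        ring
      · simp
        field_simp
        ring
    rw [e1, hVo.interior_eq] at key
    exact key
  -- the quotient
  obtain ⟨Bf, hBf⟩ : ∃ Bf : (Fin k → ℂ) × ℂ → ℂ, Bf = fun z => H z / PD z := ⟨_, rfl⟩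
  have hBd : DifferentiableOn ℂ Bf (tube (Dn k)) := by
    rw [hBf]
    have h1 : DifferentiableOn ℂ H (tube (Dn k)) := hHd.mono (fun z hz => hD _ hz)
    have h2 : DifferentiableOn ℂ (PD (k := k)) (tube (Dn k)) := PD_diff.differentiableOn
    have h3 : DifferentiableOn ℂ (fun z => (PD (k := k) z)⁻¹) (tube (Dn k)) := by
      refine DifferentiableOn.inv h2 ?_
      intro z hz
      exact PD_ne hz
    simp only [div_eq_mul_inv]
    exact h1.mul h3
  have hFarD : Far k ⊆ Dn k := by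
    rintro p ⟨h1, h2⟩
    refine ⟨h1, ?_⟩
    have : (0 : ℝ) ≤ 2 * (k : ℝ) := by positivity
    linarith
  have hfar : ∀ z ∈ tube (Far k), Bf z = ∑' d, gd 1 z.1 z.2 d := by
    refine ident (Far_open _) (Far_convex _) (V := {p | (∀ i, 1 < p.1 i) ∧ 2 * (k : ℝ) + 1 < p.2})
      ?_ ?_ ?_ (hBd.mono fun z hz => hFarD hz) (far_diff _ 1) ?_
    · have e : {p : (Fin k → ℝ) × ℝ | (∀ i, 1 < p.1 i) ∧ 2 * (k : ℝ) + 1 < p.2} =
          (⋂ i, {p : (Fin k → ℝ) × ℝ | 1 < p.1 i}) ∩ {p | 2 * (k : ℝ) + 1 < p.2} := by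
        ext p
        simp
      rw [e]
      apply IsOpen.inter
      · exact isOpen_iInter_of_finite fun i => isOpen_lt continuous_const (by fun_prop)
      · exact isOpen_lt continuous_const (by fun_prop)
    · rintro p ⟨h1, h2⟩
      exact ⟨fun i => by linarith [h1 i], h2⟩
    · exact ⟨(fun _ => 2, 2 * (k : ℝ) + 2), fun _ => by norm_num, by
        show 2 * (k : ℝ) + 1 < 2 * (k : ℝ) + 2
        linarith⟩
    · rintro z ⟨h1, h2⟩
      have h1' : ∀ i, 1 < (z.1 i).re := h1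
      have h2' : 2 * (k : ℝ) + 1 < z.2.re := h2
      have h2'' : 1 < z.2.re := by
        have : (0 : ℝ) ≤ 2 * (k : ℝ) := by positivity
        linarith
      have hzD : rez z ∈ Dn k := ⟨fun i => by
        show 1 / 2 < (z.1 i).re
        linarith [h1' i], h2''⟩
      rw [hBf]
      simp only
      rw [hHG z (hR _ h1' h2''), heq z h1' h2'', ← AM_eq 1 z.1 h1' h2'', div_eq_iff (PD_ne hzD)]
      rfl
  -- the moment bound
  intro ε B hε
  obtain ⟨C, N, hC⟩ := hHb ((fun σ : ℝ => ((fun i => if i.val < 2 * m then σ else 2, 1 + ε) :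
    (Fin k → ℝ) × ℝ)) '' (Set.Icc (1 / 2 + ε) B)) (by
      rintro _ ⟨σ, hσ, rfl⟩
      apply hD
      exact ⟨fun i => by
        show 1 / 2 < if i.val < 2 * m then σ else 2
        split_ifs
        · linarith [hσ.1]
        · norm_num, by
        show 1 < 1 + ε
        linarith⟩) (isCompact_Icc.image (by
          apply Continuous.prodMk _ continuous_const
          apply continuous_pi
          intro i
          by_cases h : i.val < 2 * m
          · simp only [h, if_true]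
            exact continuous_id
          · simp only [h, if_false]
            exact continuous_const))
  obtain ⟨n, hn⟩ : ∃ n, n = (univ : Finset (Finset (Fin k))).card := ⟨_, rfl⟩
  refine ⟨3 ^ (k - 2 * m) * (|C| / ε ^ n), N, ?_⟩
  intro X s hX hs1 hs2
  have hs : 1 / 2 < s.re := by linarith
  have hsv : ∀ i, 1 / 2 < (sv k m s i).re := by
    intro i
    rcases sv_re k m s i with h | h <;> rw [h]
    · exact hs
    · norm_num
  obtain ⟨f, hf⟩ : ∃ f : ℂ → ℂ, f = fun w => Bf (sv k m s, w) := ⟨_, rfl⟩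
  have hfd : DifferentiableOn ℂ f {w : ℂ | 1 < w.re} := by
    rw [hf]
    apply DifferentiableOn.comp (g := Bf) (f := fun w : ℂ => (sv k m s, w)) hBd
    · exact ((differentiable_const _).prodMk differentiable_id).differentiableOn
    · intro w hw
      exact ⟨hsv, hw⟩
  have ha0 : ac k m s 0 = 0 := by
    unfold ac
    rw [if_neg (by omega)]
  have hl2 : ∀ d, 0 ≤ l2 d := fun d => by linarith [l2_lower d]
  have hann : ∀ d, 0 ≤ ac k m s d := by
    intro d
    unfold ac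
    split_ifs
    · exact mul_nonneg (by positivity) (pow_nonneg (hl2 d) _)
    · exact le_rfl
  obtain ⟨c, hc⟩ : ∃ c : ℝ, c = 2 * (k : ℝ) + 2 := ⟨_, rfl⟩
  obtain ⟨ε1, he1⟩ : ∃ ε1, ε1 = min ε 1 := ⟨_, rfl⟩
  obtain ⟨C2, A2, hC2, hcr⟩ := gd_crude k ε1 (max B 2) (by rw [he1]; exact lt_min hε one_pos)
    (by rw [he1]; exact min_le_right _ _)
  have hsum : Summable (fun d : ℕ => ac k m s d * (d : ℝ) ^ (-c)) := by
    have e1 : ∀ d : ℕ, ac k m s d * (d : ℝ) ^ (-c) = ‖gd 1 (sv k m s) (c : ℂ) d‖ := by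
      intro d
      rw [gd_sv k m hk, norm_mul, Complex.norm_real, Real.norm_of_nonneg (hann d)]
      rcases Nat.eq_zero_or_pos d with h0 | h0
      · subst h0
        rw [ha0]
        ring
      · rw [nat_cpow_norm h0, Complex.ofReal_re]
    have e2 : ∀ d : ℕ, ‖gd 1 (sv k m s) (c : ℂ) d‖ ≤
        C2 * (1 + ‖sv k m s‖) ^ A2 * (d : ℝ) ^ (2 * (k : ℝ) - c) := by
      intro d
      have := hcr 1 d (sv k m s) (c : ℂ) (fun i => by
        rcases sv_re k m s i with h | h <;> rw [h, he1]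
        · linarith [min_le_left ε 1]
        · linarith [min_le_right ε 1]) (fun i => by
        rcases sv_re k m s i with h | h <;> rw [h]
        · exact hs2.trans (le_max_left _ _)
        · exact le_max_right _ _)
      rw [Complex.ofReal_re] at this
      exact this
    have e3 : Summable (fun d : ℕ => (d : ℝ) ^ (2 * (k : ℝ) - c)) :=
      Real.summable_nat_rpow.2 (by rw [hc]; linarith)
    refine Summable.of_nonneg_of_le (fun d => mul_nonneg (hann d) (by positivity)) (fun d => ?_)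
      (e3.mul_left (C2 * (1 + ‖sv k m s‖) ^ A2))
    rw [e1]
    exact e2 d
  have hfeq : ∀ w : ℂ, c < w.re → f w = ∑' d : ℕ, (ac k m s d : ℂ) * (d : ℂ) ^ (-w) := by
    intro w hw
    rw [hf]
    simp only
    rw [hfar (sv k m s, w) ⟨hsv, by
      show 2 * (k : ℝ) + 1 < w.re
      rw [hc] at hw
      linarith⟩]
    exact tsum_congr fun d => gd_sv k m hk s w d
  obtain ⟨hL1, hL2⟩ := Pool.Agent.W61h.Landau.landau (ac k m s) hann ha0 f c 1 (1 + ε) (by linarith)
    hsum hfd hfeq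
  -- the value
  have hval : ∑' d : ℕ, ac k m s d * (d : ℝ) ^ (-(1 + ε)) ≤ |C| / ε ^ n * (1 + ‖s‖) ^ N := by
    have e1 : ∑' d : ℕ, ac k m s d * (d : ℝ) ^ (-(1 + ε)) ≤ ‖f ((1 + ε : ℝ) : ℂ)‖ := by
      rw [hL2, Complex.norm_real]
      exact le_abs_self _
    refine e1.trans ?_
    obtain ⟨z, hz⟩ : ∃ z : (Fin k → ℂ) × ℂ, z = (sv k m s, ((1 + ε : ℝ) : ℂ)) := ⟨_, rfl⟩
    have hrz : rez z = (fun i : Fin k => if i.val < 2 * m then s.re else 2, 1 + ε) := by
      rw [hz]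
      unfold rez
      simp only [Complex.ofReal_re]
      congr 1
      funext i
      unfold sv
      split_ifs with h1 h2 h3
      · rfl
      · omega
      · exact Complex.conj_re s
      · norm_num
    have hiz : ‖imz z‖ ≤ ‖s‖ := by
      rw [hz]
      unfold imz
      rw [Prod.norm_mk, max_le_iff]
      constructor
      · rw [pi_norm_le_iff_of_nonneg (norm_nonneg s)]
        intro i
        unfold sv
        simp only
        split_ifs
        · exact Complex.abs_im_le_norm s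
        · rw [Complex.conj_im, norm_neg]
          exact Complex.abs_im_le_norm s
        · simp
      · simp
    have h1 := hC z (by
      rw [hrz]
      exact ⟨s.re, ⟨hs1, hs2⟩, rfl⟩)
    have hzD : rez z ∈ Dn k := by
      rw [hz]
      exact ⟨hsv, by
        show 1 < ((1 + ε : ℝ) : ℂ).re
        rw [Complex.ofReal_re]
        linarith⟩
    have h2 := PD_lower hzD
    have h3 : z.2.re - 1 = ε := by
      rw [hz]
      simp
    rw [h3, ← hn] at h2
    have hεn : 0 < ε ^ n := pow_pos hε n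
    have h4 : f ((1 + ε : ℝ) : ℂ) = H z / PD z := by
      rw [hf, hBf, hz]
    rw [h4, norm_div, div_mul_eq_mul_div]
    apply div_le_div₀ (by positivity) _ hεn h2
    refine h1.trans ?_
    have h5 : (1 + ‖imz z‖) ^ N ≤ (1 + ‖s‖) ^ N := pow_le_pow_left₀ (by positivity) (by linarith) N
    calc C * (1 + ‖imz z‖) ^ N ≤ |C| * (1 + ‖imz z‖) ^ N :=
          mul_le_mul_of_nonneg_right (le_abs_self C) (by positivity)
      _ ≤ _ := mul_le_mul_of_nonneg_left h5 (abs_nonneg C)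
  have hX0 : (0 : ℝ) < X := by exact_mod_cast hX
  have hterm : ∑ d ∈ (Icc 2 X).filter IsFund, ‖Ld d s‖ ^ (2 * m) ≤
      3 ^ (k - 2 * m) * (X : ℝ) ^ (1 + ε) *
        ∑ d ∈ (Icc 2 X).filter IsFund, ac k m s d * (d : ℝ) ^ (-(1 + ε)) := by
    rw [mul_sum]
    refine sum_le_sum fun d hd => ?_
    rw [mem_filter, mem_Icc] at hd
    have hd0 : (0 : ℝ) < d := by exact_mod_cast (by omega : 0 < d)
    have hdX : (d : ℝ) ≤ X := by exact_mod_cast hd.1.2
    have e1 : ‖Ld d s‖ ^ (2 * m) ≤ 3 ^ (k - 2 * m) * ac k m s d := by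
      unfold ac
      rw [if_pos ⟨hd.2, by omega⟩]
      have e3 : 1 ≤ (3 * l2 d) ^ (k - 2 * m) := one_le_pow₀ (by linarith [l2_lower d])
      rw [mul_pow] at e3
      calc ‖Ld d s‖ ^ (2 * m) = ‖Ld d s‖ ^ (2 * m) * 1 := (mul_one _).symm
        _ ≤ ‖Ld d s‖ ^ (2 * m) * (3 ^ (k - 2 * m) * l2 d ^ (k - 2 * m)) :=
            mul_le_mul_of_nonneg_left e3 (by positivity)
        _ = _ := by ring
    have e2 : (1 : ℝ) ≤ (X : ℝ) ^ (1 + ε) * (d : ℝ) ^ (-(1 + ε)) := by
      rw [Real.rpow_neg hd0.le, ← div_eq_mul_inv, one_le_div (by positivity)]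
      exact Real.rpow_le_rpow hd0.le hdX (by linarith)
    have e4 : 0 ≤ 3 ^ (k - 2 * m) * ac k m s d := mul_nonneg (by positivity) (hann d)
    calc ‖Ld d s‖ ^ (2 * m) ≤ 3 ^ (k - 2 * m) * ac k m s d := e1
      _ = 3 ^ (k - 2 * m) * ac k m s d * 1 := (mul_one _).symm
      _ ≤ 3 ^ (k - 2 * m) * ac k m s d * ((X : ℝ) ^ (1 + ε) * (d : ℝ) ^ (-(1 + ε))) :=
          mul_le_mul_of_nonneg_left e2 e4
      _ = _ := by ring
  have hpart : ∑ d ∈ (Icc 2 X).filter IsFund, ac k m s d * (d : ℝ) ^ (-(1 + ε)) ≤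
      ∑' d : ℕ, ac k m s d * (d : ℝ) ^ (-(1 + ε)) :=
    hL1.sum_le_tsum _ (fun d _ => mul_nonneg (hann d) (by positivity))
  calc _ ≤ 3 ^ (k - 2 * m) * (X : ℝ) ^ (1 + ε) *
        ∑ d ∈ (Icc 2 X).filter IsFund, ac k m s d * (d : ℝ) ^ (-(1 + ε)) := hterm
    _ ≤ 3 ^ (k - 2 * m) * (X : ℝ) ^ (1 + ε) * (|C| / ε ^ n * (1 + ‖s‖) ^ N) :=
        mul_le_mul_of_nonneg_left (hpart.trans hval) (by positivity)
    _ = _ := by ring

end Pool.Agent.W5h65.LH
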