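import Pool.Agent.W5h65.LH.F4
import Pool.Agent.W5h55.BT.Bochner

set_option autoImplicit false

/-! Bochner's theorem in product coordinates. -/

namespace Pool.Agent.W5h65.LH

open Finset Filter Topology MeasureTheory
open Pool.Agent.W5h65.MD hiding loc Fx_diff Fx_loc Fx_poly

/-- `(p, h)` as a function on `Option (Fin k)`, real version -/
def eR (k : ℕ) : ((Fin k → ℝ) × ℝ) →ₗ[ℝ] (Option (Fin k) → ℝ) where
  toFun p := fun o => o.elim p.2 p.1
  map_add' p q := by
    funext o
    cases o <;> rfl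
  map_smul' a p := by
    funext o
    cases o <;> rfl

lemma eR_cont (k : ℕ) : Continuous (eR k) := LinearMap.continuous_of_finiteDimensional _

def eC {k : ℕ} (z : (Fin k → ℂ) × ℂ) : Option (Fin k) → ℂ := fun o => o.elim z.2 z.1

def pR {k : ℕ} (x : Option (Fin k) → ℝ) : (Fin k → ℝ) × ℝ := (fun i => x (some i), x none)

def pC {k : ℕ} (x : Option (Fin k) → ℂ) : (Fin k → ℂ) × ℂ := (fun i => x (some i), x none)

lemma pR_cont {k : ℕ} : Continuous (pR (k := k)) := by
  unfold pR
  fun_prop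

lemma pC_eC {k : ℕ} (z : (Fin k → ℂ) × ℂ) : pC (eC z) = z := rfl

lemma pR_eR {k : ℕ} (p : (Fin k → ℝ) × ℝ) : pR (eR k p) = p := rfl

lemma eR_pR {k : ℕ} (x : Option (Fin k) → ℝ) : eR k (pR x) = x := by
  funext o
  cases o <;> rfl

lemma eC_re {k : ℕ} (z : (Fin k → ℂ) × ℂ) : (fun j => (eC z j).re) = eR k (rez z) := by
  funext o
  cases o <;> rfl

lemma eC_im {k : ℕ} (z : (Fin k → ℂ) × ℂ) : (fun j => (eC z j).im) = eR k (imz z) := by
  funext o
  cases o <;> rfl

lemma rez_pC {k : ℕ} (x : Option (Fin k) → ℂ) : rez (pC x) = pR (fun j => (x j).re) := rfl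

lemma imz_pC {k : ℕ} (x : Option (Fin k) → ℂ) : imz (pC x) = pR (fun j => (x j).im) := rfl

lemma eR_norm {k : ℕ} (p : (Fin k → ℝ) × ℝ) : ‖eR k p‖ ≤ ‖p‖ := by
  rw [pi_norm_le_iff_of_nonneg (norm_nonneg p)]
  intro o
  cases o with
  | none => exact norm_snd_le p
  | some i => exact (norm_le_pi_norm p.1 i).trans (norm_fst_le p)

lemma pR_norm {k : ℕ} (x : Option (Fin k) → ℝ) : ‖pR x‖ ≤ ‖x‖ := by
  unfold pR
  rw [Prod.norm_mk, max_le_iff]
  constructor
  · rw [pi_norm_le_iff_of_nonneg (norm_nonneg x)]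
    exact fun i => norm_le_pi_norm x (some i)
  · exact norm_le_pi_norm x none

lemma eC_diff {k : ℕ} : Differentiable ℂ (eC (k := k)) := by
  rw [differentiable_pi]
  intro o
  cases o with
  | none =>
    show Differentiable ℂ (fun z : (Fin k → ℂ) × ℂ => z.2)
    fun_prop
  | some i =>
    show Differentiable ℂ (fun z : (Fin k → ℂ) × ℂ => z.1 i)
    fun_prop

lemma pC_diff {k : ℕ} : Differentiable ℂ (pC (k := k)) := by
  unfold pC
  fun_prop

theorem boch (k : ℕ) : Boch k := by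
  intro U hU hc G hd hb
  have hWe : {x : Option (Fin k) → ℝ | pR x ∈ U} = eR k '' U := by
    ext x
    constructor
    · intro hx
      exact ⟨pR x, hx, eR_pR x⟩
    · rintro ⟨p, hp, rfl⟩
      exact hp
  obtain ⟨H, h1, h2, h3⟩ := Pool.Agent.W5h55.BT.bochner {x : Option (Fin k) → ℝ | pR x ∈ U}
    (hU.preimage pR_cont) (by
      rw [hWe]
      exact hc.image _ (eR_cont k).continuousOn) (fun x => G (pC x)) (by
      apply DifferentiableOn.comp (g := G) (f := pC) hd pC_diff.differentiableOn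
      intro x hx
      exact hx) (by
      intro K hK hKW
      obtain ⟨C, N, h⟩ := hb (pR '' K) (by
        rintro _ ⟨x, hx, rfl⟩
        exact hKW hx) (hK.image pR_cont)
      refine ⟨|C|, N, fun z hz => ?_⟩
      have e1 := h (pC z) (by
        rw [rez_pC]
        exact ⟨_, hz, rfl⟩)
      refine e1.trans ?_
      have e2 : ‖imz (pC z)‖ ≤ ‖fun j => (z j).im‖ := by
        rw [imz_pC]
        exact pR_norm _
      have e3 : (1 + ‖imz (pC z)‖) ^ N ≤ (1 + ‖fun j => (z j).im‖) ^ N :=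
        pow_le_pow_left₀ (by positivity) (by linarith) N
      calc C * (1 + ‖imz (pC z)‖) ^ N ≤ |C| * (1 + ‖imz (pC z)‖) ^ N :=
            mul_le_mul_of_nonneg_right (le_abs_self C) (by positivity)
        _ ≤ _ := mul_le_mul_of_nonneg_left e3 (abs_nonneg C))
  rw [hWe, ← LinearMap.image_convexHull] at h1 h2
  refine ⟨fun z => H (eC z), ?_, ?_, ?_⟩
  · apply DifferentiableOn.comp (g := H) (f := eC) h1 eC_diff.differentiableOn
    intro z hz
    show (fun j => (eC z j).re) ∈ (eR k '' convexHull ℝ U)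
    rw [eC_re]
    exact ⟨_, hz, rfl⟩
  · intro K hK hK2
    obtain ⟨C, N, h⟩ := h2 (eR k '' K) (hK2.image (eR_cont k)) (Set.image_mono hK)
    refine ⟨|C|, N, fun z hz => ?_⟩
    have e1 := h (eC z) (by
      rw [eC_re]
      exact ⟨_, hz, rfl⟩)
    rw [eC_im] at e1
    refine e1.trans ?_
    have e2 := eR_norm (imz z)
    have e3 : (1 + ‖eR k (imz z)‖) ^ N ≤ (1 + ‖imz z‖) ^ N :=
      pow_le_pow_left₀ (by positivity) (by linarith) N
    calc C * (1 + ‖eR k (imz z)‖) ^ N ≤ |C| * (1 + ‖eR k (imz z)‖) ^ N :=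
          mul_le_mul_of_nonneg_right (le_abs_self C) (by positivity)
      _ ≤ _ := mul_le_mul_of_nonneg_left e3 (abs_nonneg C)
  · intro z hz
    have e1 := h3 (x := eC z) (by
      show pR (fun j => (eC z j).re) ∈ U
      rw [eC_re]
      exact hz)
    simp only [pC_eC] at e1
    exact e1.symm

end Pool.Agent.W5h65.LH
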