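import Pool.Agent.W5h65.LH.F2

set_option autoImplicit false

/-! The corners from the `n`-th moment. -/

namespace Pool.Agent.W5h65.LH

open Finset Filter Topology MeasureTheory
open Pool.Agent.W5h65.MD hiding loc Fx_diff Fx_loc Fx_poly amgm height corner_Q

open Classical in
/-- upper bound for the `n`-th moment -/
def MomN (n : ℕ) : Prop := ∀ ε B : ℝ, 0 < ε → ∃ (C : ℝ) (A : ℕ), 1 ≤ C ∧ ∀ (X : ℕ) (s : ℂ), 1 ≤ X →
  1 / 2 + ε ≤ s.re → s.re ≤ B →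
  ∑ d ∈ (Icc 2 X).filter IsFund, ‖Ld d s‖ ^ n ≤ C * (1 + ‖s‖) ^ A * (X : ℝ) ^ (1 + ε)

lemma momN_of (m : ℕ) (h : Mom m) : MomN (2 * m) := by
  intro ε B hε
  obtain ⟨C, A, h1⟩ := h ε B hε
  refine ⟨max C 1, A, le_max_right _ _, fun X s hX hs1 hs2 => (h1 X s hX hs1 hs2).trans ?_⟩
  have := le_max_left C 1
  gcongr

lemma amgm {ι : Type*} (n : ℕ) (Q : Finset ι) (x : ι → ℝ) (hx : ∀ i, 0 ≤ x i) (Y : ℝ) (hY : 1 ≤ Y)
    (hxY : ∀ i ∈ Q, x i ≤ Y) :
    ∏ i ∈ Q, x i ≤ (1 + ∑ i ∈ Q, x i ^ n) * Y ^ (Q.card - n) := by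
  have hY1 : 1 ≤ Y ^ (Q.card - n) := one_le_pow₀ hY
  rcases Q.eq_empty_or_nonempty with h | h
  · rw [h]
    simp
  · obtain ⟨m, hm, hmax⟩ := Q.exists_max_image x h
    have h0 := hx m
    have h1 : ∏ i ∈ Q, x i ≤ x m ^ Q.card := by
      calc _ ≤ ∏ _i ∈ Q, x m := prod_le_prod (fun i _ => hx i) hmax
        _ = _ := by rw [prod_const]
    have h2 : x m ^ n ≤ ∑ i ∈ Q, x i ^ n :=
      single_le_sum (f := fun i => x i ^ n) (fun i _ => by
        have := hx i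
        positivity) hm
    have h4 : 0 ≤ x m ^ n := by positivity
    have h5 : x m ^ Q.card ≤ (1 + x m ^ n) * Y ^ (Q.card - n) := by
      rcases le_total Q.card n with hQ | hQ
      · have h6 : x m ^ Q.card ≤ 1 + x m ^ n := by
          rcases le_total (x m) 1 with h3 | h3
          · have : x m ^ Q.card ≤ 1 := pow_le_one₀ (hx m) h3
            linarith
          · have : x m ^ Q.card ≤ x m ^ n := pow_le_pow_right₀ h3 hQ
            linarith
        exact h6.trans (le_mul_of_one_le_right (by positivity) hY1)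
      · have h6 : x m ^ Q.card = x m ^ n * x m ^ (Q.card - n) := by
          rw [← pow_add]
          congr 1
          omega
        rw [h6]
        apply mul_le_mul (by linarith) _ (by positivity) (by positivity)
        exact pow_le_pow_left₀ h0 (hxY m hm) _
    refine h1.trans (h5.trans ?_)
    apply mul_le_mul_of_nonneg_right (by linarith) (by positivity)

/-- height of the corner -/
lemma height (n c : ℕ) (hn : 1 ≤ n) : max 1 ((c : ℝ) / n) = 1 + ((c - n : ℕ) : ℝ) / n := by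
  have hn0 : (0 : ℝ) < n := by exact_mod_cast hn
  rcases le_total c n with h | h
  · rw [Nat.sub_eq_zero_of_le h]
    have : (c : ℝ) ≤ n := by exact_mod_cast h
    rw [max_eq_left (by rw [div_le_one hn0]; exact this)]
    simp
  · have h1 : (n : ℝ) ≤ c := by exact_mod_cast h
    rw [Nat.cast_sub h, max_eq_right (by rw [one_le_div hn0]; exact h1)]
    field_simp
    ring

open Classical in
theorem corner_Q (k M n : ℕ) (hM : 1 ≤ M) (hn : 1 ≤ n) (hMom : MomN n) (Q : Finset (Fin k)) :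
    Good (EE (k := k) M) (fun i => if i ∈ Q then 1 / 2 else 1, max 1 ((Q.card : ℝ) / n)) := by
  rw [height n Q.card hn]
  have hn0 : (0 : ℝ) < n := by exact_mod_cast hn
  intro ε₀ B hε₀
  obtain ⟨m, hm⟩ : ∃ m, m = Q.card - n := ⟨_, rfl⟩
  rw [← hm]
  obtain ⟨α, hα⟩ : ∃ α : ℝ, α = 1 + (m : ℝ) / n := ⟨_, rfl⟩
  have hα1 : 1 ≤ α := by
    rw [hα]
    have : (0 : ℝ) ≤ (m : ℝ) / n := by positivity
    linarith
  rw [← hα]
  obtain ⟨ε, hεd⟩ : ∃ ε, ε = ε₀ / α := ⟨_, rfl⟩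
  have hε : 0 < ε := by rw [hεd]; positivity
  have hε2 : ε ≤ ε₀ := by rw [hεd]; exact div_le_self hε₀.le hα1
  have hεα : (1 + ε) * α = α + ε₀ := by
    rw [hεd]
    field_simp
  obtain ⟨C, A, hC, h⟩ := hMom ε B hε
  obtain ⟨CT, hCT, hT⟩ := TT_bound k ε hε M hM
  obtain ⟨Z, hZ⟩ : ∃ Z, Z = max 1 (∑' n : ℕ, (n : ℝ) ^ (-(1 + ε))) := ⟨_, rfl⟩
  have hZ1 : 1 ≤ Z := by rw [hZ]; exact le_max_left _ _
  refine ⟨2 ^ B * Z ^ k * (C) ^ m * (2 ^ (α + ε₀) * (1 + k * C)) + CT * (4 * 2 ^ B),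
    A + A * m, by positivity, ?_⟩
  intro j s w hs hsB hw
  have hs1 : ∀ i, (if i ∈ Q then (1 / 2 : ℝ) else 1) + ε₀ ≤ (s i).re := hs
  have hs2 : ∀ i, 1 / 2 + ε ≤ (s i).re := by
    intro i
    have := hs1 i
    split_ifs at this <;> linarith
  have hs3 : ∀ i, i ∉ Q → 1 + ε ≤ (s i).re := by
    intro i hi
    have := hs1 i
    rw [if_neg hi] at this
    linarith
  obtain ⟨S, hS⟩ : ∃ S, S = 1 + ‖s‖ + ‖w‖ := ⟨_, rfl⟩
  have hS1 : 1 ≤ S := by rw [hS]; linarith [norm_nonneg s, norm_nonneg w]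
  have hSA : 1 ≤ S ^ A := one_le_pow₀ hS1
  obtain ⟨X, hX⟩ : ∃ X : ℕ, X = 2 ^ (j + 1) := ⟨_, rfl⟩
  have hX1 : 1 ≤ X := by rw [hX]; exact Nat.one_le_two_pow
  have hXr : (1 : ℝ) ≤ X := by exact_mod_cast hX1
  have hX0 : (0 : ℝ) < X := by linarith
  obtain ⟨W, hW⟩ : ∃ W : ℝ, W = 2 ^ B * ((2 : ℝ) ^ j) ^ (-w.re) := ⟨_, rfl⟩
  have hW0 : 0 < W := by rw [hW]; positivity
  obtain ⟨Y, hY⟩ : ∃ Y : ℝ, Y = C * S ^ A * (X : ℝ) ^ ((1 + ε) / n) := ⟨_, rfl⟩
  have hXY : 1 ≤ (X : ℝ) ^ ((1 + ε) / n) := Real.one_le_rpow hXr (by positivity)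
  have hY1 : 1 ≤ Y := by
    rw [hY]
    have h1 : 1 ≤ C := by linarith
    exact one_le_mul_of_one_le_of_one_le (one_le_mul_of_one_le_of_one_le h1 hSA) hXY
  have hmi : ∀ i, ∑ d ∈ (Icc 2 X).filter IsFund, ‖Ld d (s i)‖ ^ n ≤
      C * S ^ A * (X : ℝ) ^ (1 + ε) := by
    intro i
    refine (h X (s i) hX1 (hs2 i) (hsB i)).trans ?_
    have e8 : 1 + ‖s i‖ ≤ S := by
      rw [hS]
      linarith [norm_le_pi_norm s i, norm_nonneg w]
    gcongr
  have hLY : ∀ d ∈ (Icc 2 X).filter IsFund, ∀ i, ‖Ld d (s i)‖ ≤ Y := by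
    intro d hd i
    have e1 : ‖Ld d (s i)‖ ^ n ≤ C * S ^ A * (X : ℝ) ^ (1 + ε) :=
      (single_le_sum (f := fun d => ‖Ld d (s i)‖ ^ n) (fun d _ => by positivity) hd).trans (hmi i)
    rw [hY]
    refine (pow_le_pow_iff_left₀ (norm_nonneg _) (by positivity) (n := n) (by omega)).1
      (e1.trans ?_)
    have e3 : ((X : ℝ) ^ ((1 + ε) / n)) ^ n = (X : ℝ) ^ (1 + ε) := by
      rw [← Real.rpow_natCast _ n, ← Real.rpow_mul hX0.le]
      congr 1
      field_simp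
    rw [mul_pow, mul_pow, e3]
    have e4 : C ≤ C ^ n := le_self_pow₀ hC (by omega)
    have e5 : S ^ A ≤ (S ^ A) ^ n := le_self_pow₀ hSA (by omega)
    gcongr
  -- each discriminant
  have hd : ∀ d ∈ (Icc 2 X).filter IsFund, ‖∏ i, Ld d (s i)‖ ≤
      Z ^ k * Y ^ m * (1 + ∑ i ∈ Q, ‖Ld d (s i)‖ ^ n) := by
    intro d hdm
    rw [norm_prod, ← prod_mul_prod_compl Q]
    have e1 : ∏ i ∈ Q, ‖Ld d (s i)‖ ≤ (1 + ∑ i ∈ Q, ‖Ld d (s i)‖ ^ n) * Y ^ m := by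
      have e0 := amgm n Q (fun i => ‖Ld d (s i)‖) (fun _ => norm_nonneg _) Y hY1
        (fun i _ => hLY d hdm i)
      rw [← hm] at e0
      exact e0
    have e2 : ∏ i ∈ Qᶜ, ‖Ld d (s i)‖ ≤ Z ^ k := by
      calc _ ≤ ∏ _i ∈ Qᶜ, Z := prod_le_prod (fun _ _ => norm_nonneg _) (fun i hi => by
            rw [mem_compl] at hi
            rw [Ld_eq d (by linarith [hs3 i hi]), hZ]
            exact (LL_norm d (by linarith) (hs3 i hi)).trans (le_max_right _ _))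
        _ = Z ^ (Qᶜ).card := by rw [prod_const]
        _ ≤ Z ^ k := pow_le_pow_right₀ hZ1 (by
            have := card_le_univ (Qᶜ)
            rwa [Fintype.card_fin] at this)
    calc _ ≤ ((1 + ∑ i ∈ Q, ‖Ld d (s i)‖ ^ n) * Y ^ m) * Z ^ k :=
          mul_le_mul e1 e2 (prod_nonneg fun _ _ => norm_nonneg _) (by positivity)
      _ = _ := by ring
  have hAB : ‖AB M s w j‖ ≤ W * (Z ^ k * Y ^ m * ((X : ℝ) ^ (1 + ε) * (1 + k * C) * S ^ A)) := by
    rw [AB_fin, ← hX]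
    refine (norm_sum_le _ _).trans ?_
    have e1 : ∑ d ∈ range (X + 1), ‖PH (d / 2 ^ j) * gd M s w d‖ ≤
        ∑ d ∈ (Icc 2 X).filter IsFund, W * (Z ^ k * Y ^ m *
          (1 + ∑ i ∈ Q, ‖Ld d (s i)‖ ^ n)) := by
      have e2 : ∑ d ∈ (Icc 2 X).filter IsFund, ‖PH (d / 2 ^ j) * gd M s w d‖ =
          ∑ d ∈ range (X + 1), ‖PH (d / 2 ^ j) * gd M s w d‖ := by
        apply sum_subset
        · intro d hd
          rw [mem_filter, mem_Icc] at hd
          rw [mem_range]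
          omega
        · intro d hd1 hd2
          unfold gd
          rw [if_neg, mul_zero, norm_zero]
          rintro ⟨h5, h6⟩
          apply hd2
          rw [mem_filter, mem_Icc]
          rw [mem_range] at hd1
          exact ⟨⟨h6, by omega⟩, h5⟩
      rw [← e2]
      refine sum_le_sum fun d hdm => ?_
      have hd' := hdm
      rw [mem_filter, mem_Icc] at hd'
      have h7 : IsFund d ∧ 1 < d := ⟨hd'.2, by omega⟩
      unfold gd
      rw [if_pos h7]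
      have e3 : PH (d / 2 ^ j) * (((kr d M : ℤ) : ℂ) * (d : ℂ) ^ (-w) * ∏ i, Ld d (s i)) =
          ((kr d M : ℤ) : ℂ) * (PH (d / 2 ^ j) * (d : ℂ) ^ (-w)) * ∏ i, Ld d (s i) := by ring
      rw [e3, norm_mul, norm_mul]
      apply mul_le_mul _ (hd d hdm) (norm_nonneg _) hW0.le
      calc _ ≤ 1 * W := mul_le_mul (kr_norm d M) (by rw [hW]; exact wt hw (by omega) j)
            (norm_nonneg _) one_pos.le
        _ = W := one_mul _
    refine e1.trans ?_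
    rw [← mul_sum, ← mul_sum, sum_add_distrib, sum_comm (s := (Icc 2 X).filter IsFund) (t := Q)]
    apply mul_le_mul_of_nonneg_left _ hW0.le
    apply mul_le_mul_of_nonneg_left _ (by positivity)
    have e4 : ∑ d ∈ (Icc 2 X).filter IsFund, (1 : ℝ) ≤ (X : ℝ) ^ (1 + ε) := by
      rw [sum_const, nsmul_eq_mul, mul_one]
      have e5 : ((Icc 2 X).filter IsFund).card ≤ X := by
        refine (card_filter_le _ _).trans ?_
        rw [Nat.card_Icc]
        omega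
      calc (((Icc 2 X).filter IsFund).card : ℝ) ≤ X := by exact_mod_cast e5
        _ = (X : ℝ) ^ (1 : ℝ) := (Real.rpow_one _).symm
        _ ≤ _ := Real.rpow_le_rpow_of_exponent_le hXr (by linarith)
    have e6 : ∑ i ∈ Q, ∑ d ∈ (Icc 2 X).filter IsFund, ‖Ld d (s i)‖ ^ n ≤
        k * (C * S ^ A * (X : ℝ) ^ (1 + ε)) := by
      refine (sum_le_sum fun i _ => hmi i).trans ?_
      rw [sum_const, nsmul_eq_mul]
      apply mul_le_mul_of_nonneg_right _ (by positivity)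
      have := card_le_univ Q
      rw [Fintype.card_fin] at this
      exact_mod_cast this
    have hXp : 0 < (X : ℝ) ^ (1 + ε) := by positivity
    have e9 : (X : ℝ) ^ (1 + ε) ≤ (X : ℝ) ^ (1 + ε) * S ^ A :=
      le_mul_of_one_le_right hXp.le hSA
    calc _ ≤ (X : ℝ) ^ (1 + ε) + (k * (C * S ^ A * (X : ℝ) ^ (1 + ε))) := by linarith
      _ ≤ (X : ℝ) ^ (1 + ε) * S ^ A + (k * (C * S ^ A * (X : ℝ) ^ (1 + ε))) := by linarith
      _ = _ := by ring
  have hTZ : ‖TT M s * ZZ w (2 ^ j)‖ ≤ CT * (4 * 2 ^ j * W) := by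
    rw [norm_mul, hW]
    exact mul_le_mul (hT s hs2) (ZZ_norm hw j) (norm_nonneg _) hCT.le
  have hYm : Y ^ m * (X : ℝ) ^ (1 + ε) = (C) ^ m * S ^ (A * m) * (X : ℝ) ^ (α + ε₀) := by
    rw [hY, mul_pow, mul_pow, ← pow_mul, ← Real.rpow_natCast ((X : ℝ) ^ ((1 + ε) / n)) m,
      ← Real.rpow_mul hX0.le, mul_assoc, ← Real.rpow_add hX0]
    congr 2
    rw [← hεα, hα]
    ring
  have p1 : W * (X : ℝ) ^ (α + ε₀) = 2 ^ B * 2 ^ (α + ε₀) * (2 : ℝ) ^ ((j : ℝ) * (α + ε₀ - w.re)) := by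
    rw [hW, hX]
    push_cast
    rw [pow_succ, Real.mul_rpow (by positivity) (by norm_num), two_pow_rpow, two_pow_rpow]
    have : (2 : ℝ) ^ ((j : ℝ) * (α + ε₀ - w.re)) =
        (2 : ℝ) ^ ((j : ℝ) * -w.re) * (2 : ℝ) ^ ((j : ℝ) * (α + ε₀)) := by
      rw [← Real.rpow_add (by norm_num)]
      congr 1
      ring
    rw [this]
    ring
  have p2 : 2 ^ j * W ≤ 2 ^ B * (2 : ℝ) ^ ((j : ℝ) * (α + ε₀ - w.re)) := by
    rw [hW, two_pow_rpow]
    have : (2 : ℝ) ^ j * (2 ^ B * (2 : ℝ) ^ ((j : ℝ) * -w.re)) =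
        2 ^ B * (2 : ℝ) ^ ((j : ℝ) * (1 - w.re)) := by
      rw [← Real.rpow_natCast 2 j]
      have : (2 : ℝ) ^ ((j : ℝ) * (1 - w.re)) = (2 : ℝ) ^ (j : ℝ) * (2 : ℝ) ^ ((j : ℝ) * -w.re) := by
        rw [← Real.rpow_add (by norm_num)]
        congr 1
        ring
      rw [this]
      ring
    rw [this]
    apply mul_le_mul_of_nonneg_left _ (by positivity)
    apply Real.rpow_le_rpow_of_exponent_le (by norm_num)
    apply mul_le_mul_of_nonneg_left _ (Nat.cast_nonneg j)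
    linarith
  unfold EE
  show _ ≤ _ * (1 + ‖s‖ + ‖w‖) ^ (A + A * m) * (2 : ℝ) ^ ((j : ℝ) * (α + ε₀ - w.re))
  rw [← hS]
  obtain ⟨P, hP⟩ : ∃ P, P = (2 : ℝ) ^ ((j : ℝ) * (α + ε₀ - w.re)) := ⟨_, rfl⟩
  rw [← hP] at p1 p2 ⊢
  have hP0 : 0 < P := by rw [hP]; positivity
  have hSAm : 1 ≤ S ^ (A + A * m) := one_le_pow₀ hS1
  calc _ ≤ W * (Z ^ k * Y ^ m * ((X : ℝ) ^ (1 + ε) * (1 + k * C) * S ^ A)) +
        CT * (4 * 2 ^ j * W) := (norm_sub_le _ _).trans (add_le_add hAB hTZ)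
    _ = W * (Z ^ k * (Y ^ m * (X : ℝ) ^ (1 + ε)) * ((1 + k * C) * S ^ A)) +
        CT * 4 * (2 ^ j * W) := by ring
    _ = (W * (X : ℝ) ^ (α + ε₀)) * (Z ^ k * (C) ^ m * (1 + k * C) * S ^ (A + A * m)) +
        CT * 4 * (2 ^ j * W) := by
        rw [hYm, pow_add]
        ring
    _ ≤ (2 ^ B * 2 ^ (α + ε₀) * P) * (Z ^ k * (C) ^ m * (1 + k * C) *
        S ^ (A + A * m)) + CT * 4 * (2 ^ B * P) := by
        rw [p1]
        gcongr
    _ ≤ (2 ^ B * 2 ^ (α + ε₀) * P) * (Z ^ k * (C) ^ m * (1 + k * C) *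
        S ^ (A + A * m)) + CT * 4 * (2 ^ B * P) * S ^ (A + A * m) := by
        apply add_le_add le_rfl
        exact le_mul_of_one_le_right (by positivity) hSAm
    _ = _ := by ring

end Pool.Agent.W5h65.LH
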